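import Mathlib

set_option autoImplicit false

/-!
# The generic undirected graph with coloured cliques
-/

namespace Pool.Agent.H17.FK

/-- An undirected graph on `X` without loops in which every ordered clique with `k + 1` vertices
has a colour from `A` (the colouring is total, the values on other tuples are ignored). -/
structure CG (k : ℕ) (A X : Type) where
  arc : X → X → Prop
  symm : ∀ x y, arc x y → arc y x
  irrefl : ∀ x, ¬ arc x x
  col : (Fin (k + 1) → X) → A

/-- `x 0, …, x (n-1)` is a clique. -/
def Tr {X : Type} (arc : X → X → Prop) {n : ℕ} (x : Fin n → X) : Prop :=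
  ∀ i j : Fin n, i ≠ j → arc (x i) (x j)

/-- Good: every clique with `m` vertices has admissible colours. -/
def CG.Good {k : ℕ} {A X : Type} (Y : CG k A X) {m : ℕ}
    (Q : ((Fin (k + 1) → Fin m) → A) → Prop) : Prop :=
  ∀ x : Fin m → X, Tr Y.arc x → Q (fun p => Y.col (fun i => x (p i)))

/-- `Q` only depends on the values at the injective arguments. -/
def Loc {k m : ℕ} {A : Type} (Q : ((Fin (k + 1) → Fin m) → A) → Prop) : Prop :=
  ∀ c c' : (Fin (k + 1) → Fin m) → A, (∀ p, Function.Injective p → c p = c' p) → Q c → Q c'

/-- The tuples `p` and `q` have the same type, up to the change `β` of colours. -/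
structure Same {k : ℕ} {A X Y I : Type} (C : CG k A X) (D : CG k A Y) (β : A → A) (p : I → X)
    (q : I → Y) : Prop where
  eq : ∀ i j, p i = p j ↔ q i = q j
  arc : ∀ i j, C.arc (p i) (p j) ↔ D.arc (q i) (q j)
  col : ∀ t : Fin (k + 1) → I, Tr C.arc (fun i => p (t i)) →
    D.col (fun i => q (t i)) = β (C.col (fun i => p (t i)))

theorem Tr.comp {X : Type} {arc : X → X → Prop} {n : ℕ} {x : Fin n → X} (h : Tr arc x) {l : ℕ}
    {p : Fin l → Fin n} (hp : Function.Injective p) : Tr arc (fun i => x (p i)) :=
  fun i j hij => h _ _ (fun h => hij (hp h))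

namespace Gen

/-- the underlying type of codes of vertices -/
abbrev V : Type := WType (fun p : ℕ × ℕ => Fin p.1)

/-- number of listed elements -/
def num : V → ℕ
  | ⟨a, _⟩ => a.1

/-- code -/
def cod : V → ℕ
  | ⟨a, _⟩ => a.2

/-- the listed elements -/
def lst : (v : V) → Fin (num v) → V
  | ⟨_, f⟩ => f

theorem depth_lst : ∀ (v : V) (i : Fin (num v)), (lst v i).depth < v.depth
  | ⟨a, f⟩, i => WType.depth_lt_depth_mk (β := fun p : ℕ × ℕ => Fin p.1) a f i

instance : Countable V := inferInstance

/-- the data of a one point extension of `n` points -/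
abbrev Dat (k : ℕ) (A : Type) (n : ℕ) : Type :=
  (Fin n → Fin 2) × ((Fin (k + 1) → Option (Fin n)) → A)

instance (k : ℕ) (A : Type) [Countable A] (n : ℕ) : Countable (Dat k A n) := inferInstance

variable (k : ℕ) (A : Type) [Countable A] [Nonempty A]

/-- decoding -/
noncomputable def dec (n : ℕ) : ℕ → Dat k A n := (exists_surjective_nat (Dat k A n)).choose

theorem dec_surj (n : ℕ) : Function.Surjective (dec k A n) :=
  (exists_surjective_nat (Dat k A n)).choose_spec

/-- the data of a vertex -/
noncomputable def dat (v : V) : Dat k A (num v) := dec k A (num v) (cod v)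

open Classical in
/-- the position of `w` in the list of `v` -/
noncomputable def pos (v w : V) : Option (Fin (num v)) :=
  if h : ∃ i, lst v i = w then some h.choose else none

theorem pos_some {v w : V} {i : Fin (num v)} (h : pos v w = some i) : lst v i = w := by
  unfold pos at h
  split_ifs at h with h1
  rw [← Option.some.inj h]
  exact h1.choose_spec

theorem pos_ne_none {v w : V} (h : ∃ i, lst v i = w) : ∃ i, pos v w = some i ∧ lst v i = w := by
  unfold pos
  rw [dif_pos h]
  exact ⟨_, rfl, h.choose_spec⟩

theorem pos_none {v w : V} (h : ¬ ∃ i, lst v i = w) : pos v w = none := by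
  unfold pos
  rw [dif_neg h]

/-- label -/
noncomputable def lab (v w : V) : Fin 2 :=
  match pos v w with
  | some i => (dat k A v).1 i
  | none => 0

theorem lab_ne {v w : V} (h : lab k A v w ≠ 0) : ∃ i, lst v i = w := by
  by_contra h1
  apply h
  unfold lab
  rw [pos_none h1]

theorem depth_of_lab {v w : V} (h : lab k A v w ≠ 0) : w.depth < v.depth := by
  obtain ⟨i, rfl⟩ := lab_ne k A h
  exact depth_lst v i

/-- the raw arcs -/
def rarc (x y : V) : Prop := lab k A y x = 1 ∨ lab k A x y = 1

theorem rarc_depth {x y : V} (h : rarc k A x y) : x.depth ≠ y.depth := by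
  rcases h with h | h
  · exact (depth_of_lab k A (by rw [h]; decide)).ne
  · exact (depth_of_lab k A (by rw [h]; decide)).ne'

/-- if `x` and `y` are adjacent and `y` is not newer then `y` is listed in `x` -/
theorem child_of {x y : V} (h : rarc k A x y) (hd : y.depth ≤ x.depth) :
    ∃ i, lst x i = y := by
  have key : lab k A x y ≠ 0 ∨ lab k A y x ≠ 0 := by
    rcases h with h | h
    · right; rw [h]; decide
    · left; rw [h]; decide
  rcases key with h1 | h1
  · exact lab_ne k A h1
  · have := depth_of_lab k A h1
    omega

theorem rarc_symm (x y : V) (h : rarc k A x y) : rarc k A y x := Or.symm h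

theorem rarc_irrefl (x : V) (h : rarc k A x x) : False := rarc_depth k A h rfl

/-- an index of the newest element of a tuple -/
theorem exists_newest {n : ℕ} (t : Fin (n + 1) → V) : ∃ i, ∀ j, (t j).depth ≤ (t i).depth :=
  Finite.exists_max (fun j => (t j).depth)

/-- the newest element of a tuple -/
noncomputable def newest (t : Fin (k + 1) → V) : V := t (exists_newest t).choose

theorem newest_spec (t : Fin (k + 1) → V) (j) : (t j).depth ≤ (newest k t).depth :=
  (exists_newest t).choose_spec j

theorem newest_mem (t : Fin (k + 1) → V) : ∃ i, t i = newest k t := ⟨_, rfl⟩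

open Classical in
/-- the raw colours -/
noncomputable def rcol (t : Fin (k + 1) → V) : A :=
  (dat k A (newest k t)).2 (fun j => if t j = newest k t then none else pos (newest k t) (t j))

/-- the raw coloured oriented graph -/
noncomputable def raw : CG k A V where
  arc := rarc k A
  symm := rarc_symm k A
  irrefl := rarc_irrefl k A
  col := rcol k A

/-- child relation -/
def Child (v w : V) : Prop := ∃ i, lst v i = w

variable {k A}

/-- the set of hereditarily good vertices -/
def GS {m : ℕ} (Q : ((Fin (k + 1) → Fin m) → A) → Prop) : Set V :=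
  {v | ∀ x : Fin m → V, Tr (rarc k A) x → (∀ i, Relation.ReflTransGen Child v (x i)) →
    Q (fun p => rcol k A (fun i => x (p i)))}

theorem depth_le {v w : V} (h : Relation.ReflTransGen Child v w) : w.depth ≤ v.depth := by
  induction h with
  | refl => exact le_rfl
  | tail _ h ih =>
    obtain ⟨i, rfl⟩ := h
    exact (depth_lst _ i).le.trans ih

/-- all elements of a clique are in the closure of the newest one -/
theorem clique_child {m : ℕ} {x : Fin m → V} (hx : Tr (rarc k A) x) {i0 : Fin m}
    (h0 : ∀ j, (x j).depth ≤ (x i0).depth) (j : Fin m) :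
    j = i0 ∨ Child (x i0) (x j) := by
  by_cases hj : j = i0
  · exact Or.inl hj
  · right
    exact child_of k A (hx _ _ (Ne.symm hj)) (h0 j)

theorem exists_max_fin {m : ℕ} (hm : 0 < m) (x : Fin m → V) :
    ∃ i, ∀ j, (x j).depth ≤ (x i).depth := by
  have : Nonempty (Fin m) := ⟨⟨0, hm⟩⟩
  exact Finite.exists_max (fun j => (x j).depth)

/-- the generic structure -/
noncomputable def gen {m : ℕ} (Q : ((Fin (k + 1) → Fin m) → A) → Prop) : CG k A (GS Q) where
  arc x y := rarc k A x y
  symm x y := rarc_symm k A x y
  irrefl x := rarc_irrefl k A x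
  col t := rcol k A (fun i => (t i : V))

theorem gen_good {m : ℕ} (hm : 0 < m) (Q : ((Fin (k + 1) → Fin m) → A) → Prop) :
    (gen Q).Good Q := by
  intro x hx
  obtain ⟨i0, h0⟩ := exists_max_fin hm (fun i => (x i : V))
  have h1 : Tr (rarc k A) (fun i => (x i : V)) := hx
  refine (x i0).2 (fun i => (x i : V)) h1 ?_
  intro j
  rcases clique_child h1 h0 j with h | h
  · rw [h]
  · exact Relation.ReflTransGen.single h

end Gen

theorem Same.comp {k : ℕ} {A X Y I J : Type} {C : CG k A X} {D : CG k A Y} {β : A → A} {p : I → X}
    {q : I → Y} (h : Same C D β p q) (f : J → I) :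
    Same C D β (fun j => p (f j)) (fun j => q (f j)) :=
  ⟨fun i j => h.eq _ _, fun i j => h.arc _ _, fun t ht => h.col (fun i => f (t i)) ht⟩

namespace Gen

variable {k : ℕ} {A : Type} [Countable A] [Nonempty A]

theorem one_point {m : ℕ} (hm : 0 < m) (Q : ((Fin (k + 1) → Fin m) → A) → Prop) (hQ : Loc Q)
    {X : Type} (Y : CG k A X) (β : A → A)
    (hY : ∀ x : Fin m → X, Tr Y.arc x → Q (fun p => β (Y.col (fun i => x (p i)))))
    {I : Type} [Finite I] (p : I → X) (q : I → GS Q) (h : Same Y (gen Q) β p q) (x : X) :
    ∃ v : GS Q, Same Y (gen Q) β (fun o : Option I => o.elim x p) (fun o => o.elim v q) := by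
  classical
  by_cases hx : ∃ i, p i = x
  · obtain ⟨i, rfl⟩ := hx
    refine ⟨q i, ?_⟩
    convert h.comp (fun o : Option I => o.elim i id) using 1
    · funext o; cases o <;> rfl
    · funext o; cases o <;> rfl
  have := Fintype.ofFinite I
  let n := Fintype.card I
  let e : Fin n ≃ I := (Fintype.equivFin I).symm
  obtain ⟨c, hc⟩ := dec_surj k A n
    (fun i => if Y.arc (p (e i)) x then 1 else 0,
     fun t => β (Y.col (fun j => (t j).elim x (fun i => p (e i)))))
  let v0 : V := WType.mk (n, c) (fun i => (q (e i)).1)
  have hlst : ∀ i, lst v0 i = (q (e i)).1 := fun i => rfl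
  have hdat : dat k A v0 = (fun i => if Y.arc (p (e i)) x then 1 else 0,
     fun t => β (Y.col (fun j => (t j).elim x (fun i => p (e i))))) := hc
  have hdepth : ∀ i, (q i).1.depth < v0.depth := by
    intro i
    have h2 : (q i).1 = lst v0 (e.symm i) :=
      congrArg (fun j => (q j).1) (e.apply_symm_apply i).symm
    rw [h2]
    exact depth_lst v0 _
  have hchild : ∀ w, Child v0 w ↔ ∃ i, (q i).1 = w := by
    intro w
    constructor
    · rintro ⟨i, hi⟩
      exact ⟨e i, hi⟩
    · rintro ⟨i, hi⟩
      have h2 : lst v0 (e.symm i) = (q i).1 :=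
        congrArg (fun j => (q j).1) (e.apply_symm_apply i)
      exact ⟨e.symm i, h2.trans hi⟩
  have hpos : ∀ i, ∃ i', pos v0 (q i).1 = some i' ∧ p (e i') = p i := by
    intro i
    obtain ⟨i', h1, h2⟩ := pos_ne_none (v := v0) (w := (q i).1) ((hchild _).2 ⟨i, rfl⟩)
    refine ⟨i', h1, ?_⟩
    rw [hlst] at h2
    exact (h.eq _ _).2 (Subtype.ext h2)
  have hlab : ∀ i, lab k A v0 (q i).1 =
      if Y.arc (p i) x then 1 else 0 := by
    intro i
    obtain ⟨i', h1, h2⟩ := hpos i
    unfold lab
    rw [h1]
    show (dat k A v0).1 i' = _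
    rw [hdat]
    show (if Y.arc (p (e i')) x then (1 : Fin 2) else 0) = _
    rw [h2]
  have hlab' : ∀ i, lab k A (q i).1 v0 = 0 := by
    intro i
    by_contra h1
    have h2 := depth_of_lab k A h1
    have := hdepth i
    omega
  have harc1 : ∀ i, rarc k A (q i).1 v0 ↔ Y.arc (p i) x := by
    intro i
    unfold rarc
    rw [hlab, hlab']
    by_cases h1 : Y.arc (p i) x
    · simp [h1]
    · simp [h1]
  have harc2 : ∀ i, rarc k A v0 (q i).1 ↔ Y.arc x (p i) := by
    intro i
    constructor
    · intro h1
      exact Y.symm _ _ ((harc1 i).1 (rarc_symm k A _ _ h1))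
    · intro h1
      exact rarc_symm k A _ _ ((harc1 i).2 (Y.symm _ _ h1))
  have hne : ∀ i, (q i).1 ≠ v0 := by
    intro i h1
    have := hdepth i
    rw [h1] at this
    exact lt_irrefl _ this
  let qq : Option I → V := fun o => o.elim v0 (fun i => (q i).1)
  let pp : Option I → X := fun o => o.elim x p
  have harc : ∀ o o', rarc k A (qq o) (qq o') ↔ Y.arc (pp o) (pp o') := by
    intro o o'
    cases o with
    | none =>
      cases o' with
      | none =>
        constructor
        · intro h1
          exact (rarc_irrefl k A _ h1).elim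
        · intro h1
          exact absurd h1 (Y.irrefl _)
      | some i => exact harc2 i
    | some i =>
      cases o' with
      | none => exact harc1 i
      | some j => exact (h.arc i j).symm
  have hcol : ∀ t : Fin (k + 1) → Option I, Tr Y.arc (fun i => pp (t i)) →
      rcol k A (fun i => qq (t i)) = β (Y.col (fun i => pp (t i))) := by
    intro t ht
    by_cases h1 : ∃ j, t j = none
    · obtain ⟨j, hj⟩ := h1
      have hnew : newest k (fun i => qq (t i)) = v0 := by
        obtain ⟨i, hi⟩ := newest_mem k (fun i => qq (t i))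
        have h2 := newest_spec k (fun i => qq (t i)) j
        rw [← hi]
        rw [← hi] at h2
        cases h3 : t i with
        | none => rfl
        | some i' =>
          exfalso
          simp only [hj, h3, qq, Option.elim] at h2
          have := hdepth i'
          omega
      unfold rcol
      rw [hnew, hdat]
      show β (Y.col _) = _
      congr 2
      funext i
      by_cases h2 : t i = none
      · have h3 : qq (t i) = v0 := by rw [h2]; rfl
        have h4 : (if qq (t i) = v0 then none else pos v0 (qq (t i)) : Option (Fin n)) = none :=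
          if_pos h3
        have h5 : pp (t i) = x := by rw [h2]; rfl
        rw [h5]
        exact congrArg (fun o : Option (Fin n) => o.elim x (fun i => p (e i))) h4
      · obtain ⟨i1, hi1⟩ := Option.ne_none_iff_exists'.1 h2
        obtain ⟨i', h3, h4⟩ := hpos i1
        have h5 : qq (t i) = (q i1).1 := by rw [hi1]; rfl
        have h8 : qq (t i) ≠ v0 := by rw [h5]; exact hne i1
        have h6 : (if qq (t i) = v0 then none else pos v0 (qq (t i)) : Option (Fin n)) =
            some i' := (if_neg h8).trans ((congrArg (pos v0) h5).trans h3)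
        have h7 : pp (t i) = p i1 := by rw [hi1]; rfl
        rw [h7]
        exact (congrArg (fun o : Option (Fin n) => o.elim x (fun i => p (e i))) h6).trans h4
    · push Not at h1
      have h2 : ∀ j, ∃ i, t j = some i := fun j => Option.ne_none_iff_exists'.1 (h1 j)
      choose t' ht' using h2
      have h3 : t = fun j => some (t' j) := funext ht'
      subst h3
      exact h.col t' ht
  have hmem : v0 ∈ GS Q := by
    intro x' hx' hcl
    by_cases h1 : ∃ i1, x' i1 = v0
    · obtain ⟨i1, hi1⟩ := h1
      have h0 : ∀ j, (x' j).depth ≤ (x' i1).depth := by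
        intro j
        rw [hi1]
        exact depth_le (hcl j)
      have h2 : ∀ j, ∃ o, x' j = qq o := by
        intro j
        rcases clique_child hx' h0 j with h3 | h3
        · exact ⟨none, by rw [h3, hi1]; rfl⟩
        · rw [hi1] at h3
          obtain ⟨i, hi⟩ := (hchild _).1 h3
          exact ⟨some i, hi.symm⟩
      choose y hy using h2
      have h4 : x' = fun j => qq (y j) := funext hy
      subst h4
      have h5 : Tr Y.arc (fun j => pp (y j)) := fun i j hij => (harc _ _).1 (hx' i j hij)
      refine hQ _ _ ?_ (hY _ h5)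
      intro p' hp'
      exact (hcol (fun i => y (p' i)) (h5.comp hp')).symm
    · obtain ⟨i0, h0⟩ := exists_max_fin hm x'
      have h2 : ∃ i, Relation.ReflTransGen Child (q i).1 (x' i0) := by
        rcases (hcl i0).cases_head with h3 | ⟨u, h3, h4⟩
        · exact absurd ⟨i0, h3.symm⟩ h1
        · obtain ⟨i, rfl⟩ := (hchild _).1 h3
          exact ⟨i, h4⟩
      obtain ⟨i, hi⟩ := h2
      refine (q i).2 x' hx' ?_
      intro j
      rcases clique_child hx' h0 j with h3 | h3
      · rw [h3]; exact hi
      · exact hi.tail h3
  refine ⟨⟨v0, hmem⟩, ⟨?_, ?_, ?_⟩⟩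
  · intro o o'
    cases o with
    | none =>
      cases o' with
      | none => exact ⟨fun _ => rfl, fun _ => rfl⟩
      | some i =>
        constructor
        · intro h1
          exact absurd ⟨i, h1.symm⟩ hx
        · intro h1
          exact absurd (congrArg Subtype.val h1).symm (hne i)
    | some i =>
      cases o' with
      | none =>
        constructor
        · intro h1
          exact absurd ⟨i, h1⟩ hx
        · intro h1
          exact absurd (congrArg Subtype.val h1) (hne i)
      | some j => exact h.eq i j
  · intro o o'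
    have := harc o o'
    show _ ↔ rarc k A _ _
    rw [← this]
    cases o <;> cases o' <;> rfl
  · intro t ht
    have := hcol t ht
    show rcol k A _ = _
    rw [← this]
    congr 1
    funext i
    show Subtype.val ((t i).elim _ q) = qq (t i)
    cases t i <;> rfl

end Gen

/-- There is a countable generic structure. -/
theorem exists_generic (k : ℕ) (A : Type) [Countable A] [Nonempty A] {m : ℕ} (hm : 0 < m)
    (Q : ((Fin (k + 1) → Fin m) → A) → Prop) (hQ : Loc Q) :
    ∃ (G : Type) (_ : Countable G) (C : CG k A G), C.Good Q ∧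
      ∀ (X : Type) (Y : CG k A X) (β : A → A)
        (_ : ∀ x : Fin m → X, Tr Y.arc x → Q (fun p => β (Y.col (fun i => x (p i)))))
        (I : Type) (_ : Finite I) (p : I → X) (q : I → G) (_ : Same Y C β p q) (x : X),
        ∃ v : G, Same Y C β (fun o : Option I => o.elim x p) (fun o => o.elim v q) :=
  ⟨Gen.GS Q, inferInstance, Gen.gen Q, Gen.gen_good hm Q,
    fun _ Y β hY _ _ p q h x => Gen.one_point hm Q hQ Y β hY p q h x⟩

end Pool.Agent.H17.FK
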