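import Mathlib
import Pool.Agent.H17.FK.Gen
import Pool.Agent.H74.Stub.Core

set_option autoImplicit false

/-!
# Back and forth for the generic undirected graph
-/

namespace Pool.Agent.H17.FK

open Pool.Agent.H74.Stub (exists_seq_ext)

/-- the extension property -/
structure IsGen {k m : ℕ} {A G : Type} (C : CG k A G)
    (Q : ((Fin (k + 1) → Fin m) → A) → Prop) : Prop where
  good : C.Good Q
  ext : ∀ (X : Type) (Y : CG k A X) (β : A → A)
    (_ : ∀ x : Fin m → X, Tr Y.arc x → Q (fun p => β (Y.col (fun i => x (p i)))))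
    (I : Type) (_ : Finite I) (p : I → X) (q : I → G) (_ : Same Y C β p q) (x : X),
    ∃ v : G, Same Y C β (fun o : Option I => o.elim x p) (fun o => o.elim v q)

theorem exists_isGen (k : ℕ) (A : Type) [Countable A] [Nonempty A] {m : ℕ} (hm : 0 < m)
    (Q : ((Fin (k + 1) → Fin m) → A) → Prop) (hQ : Loc Q) :
    ∃ (G : Type) (_ : Countable G) (C : CG k A G), IsGen C Q := by
  obtain ⟨G, h1, C, h2, h3⟩ := exists_generic k A hm Q hQ
  exact ⟨G, h1, C, h2, h3⟩

section

variable {k m : ℕ} {A G X I J : Type} {C : CG k A G} {Q : ((Fin (k + 1) → Fin m) → A) → Prop}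

theorem Same.tr {Y : CG k A X} {β : A → A} {p : I → X} {q : I → G} (h : Same Y C β p q)
    {n : ℕ} (t : Fin n → I) :
    Tr Y.arc (fun i => p (t i)) ↔ Tr C.arc (fun i => q (t i)) :=
  ⟨fun h1 i j hij => (h.arc _ _).1 (h1 i j hij), fun h1 i j hij => (h.arc _ _).2 (h1 i j hij)⟩

theorem Same.symm {Y : CG k A X} {β : A ≃ A} {p : I → X} {q : I → G} (h : Same Y C β p q) :
    Same C Y β.symm q p where
  eq i j := (h.eq i j).symm
  arc i j := (h.arc i j).symm
  col t ht := by
    rw [h.col t ((h.tr t).2 ht), Equiv.symm_apply_apply]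

theorem same_of_finite {Y : CG k A X} {β : A → A} {p : I → X} {q : I → G} {a : ℕ → X} {b : ℕ → G}
    (h : ∀ N, Same Y C β (Sum.elim p (fun i : Fin N => a i)) (Sum.elim q (fun i : Fin N => b i))) :
    Same Y C β (Sum.elim p a) (Sum.elim q b) := by
  let bd : I ⊕ ℕ → ℕ := Sum.elim (fun _ => 0) (fun i => i + 1)
  have lift : ∀ N (o : I ⊕ ℕ), bd o ≤ N → ∃ o' : I ⊕ Fin N,
      o = Sum.map id (fun i : Fin N => (i : ℕ)) o' := by
    intro N o ho
    cases o with
    | inl i => exact ⟨Sum.inl i, rfl⟩
    | inr i => exact ⟨Sum.inr ⟨i, ho⟩, rfl⟩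
  have e1 : ∀ N (o : I ⊕ Fin N), Sum.elim p a (Sum.map id (fun i : Fin N => (i : ℕ)) o) =
      Sum.elim p (fun i : Fin N => a i) o := by
    intro N o; cases o <;> rfl
  have e2 : ∀ N (o : I ⊕ Fin N), Sum.elim q b (Sum.map id (fun i : Fin N => (i : ℕ)) o) =
      Sum.elim q (fun i : Fin N => b i) o := by
    intro N o; cases o <;> rfl
  have f1 : ∀ N (o : I ⊕ ℕ) (o' : I ⊕ Fin N), o = Sum.map id (fun i : Fin N => (i : ℕ)) o' →
      Sum.elim p a o = Sum.elim p (fun i : Fin N => a i) o' :=
    fun N o o' h => (congrArg (Sum.elim p a) h).trans (e1 _ _)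
  have f2 : ∀ N (o : I ⊕ ℕ) (o' : I ⊕ Fin N), o = Sum.map id (fun i : Fin N => (i : ℕ)) o' →
      Sum.elim q b o = Sum.elim q (fun i : Fin N => b i) o' :=
    fun N o o' h => (congrArg (Sum.elim q b) h).trans (e2 _ _)
  refine ⟨?_, ?_, ?_⟩
  · intro i j
    obtain ⟨i', hi'⟩ := lift (max (bd i) (bd j)) i (le_max_left _ _)
    obtain ⟨j', hj'⟩ := lift (max (bd i) (bd j)) j (le_max_right _ _)
    rw [f1 _ _ _ hi', f1 _ _ _ hj', f2 _ _ _ hi', f2 _ _ _ hj']
    exact (h _).eq _ _
  · intro i j
    obtain ⟨i', hi'⟩ := lift (max (bd i) (bd j)) i (le_max_left _ _)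
    obtain ⟨j', hj'⟩ := lift (max (bd i) (bd j)) j (le_max_right _ _)
    rw [f1 _ _ _ hi', f1 _ _ _ hj', f2 _ _ _ hi', f2 _ _ _ hj']
    exact (h _).arc _ _
  · intro t ht
    obtain ⟨N, hN⟩ : ∃ N, ∀ i, bd (t i) ≤ N :=
      ⟨Finset.univ.sup (fun i => bd (t i)),
        fun i => Finset.le_sup (f := fun i => bd (t i)) (Finset.mem_univ i)⟩
    have := fun i => lift N (t i) (hN i)
    choose t' ht' using this
    have e4 : (fun i => Sum.elim p a (t i)) = fun i => Sum.elim p (fun i : Fin N => a i) (t' i) :=
      funext fun i => f1 _ _ _ (ht' i)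
    have e5 : (fun i => Sum.elim q b (t i)) = fun i => Sum.elim q (fun i : Fin N => b i) (t' i) :=
      funext fun i => f2 _ _ _ (ht' i)
    rw [e4] at ht
    rw [e4, e5]
    exact (h N).col t' ht

/-- the step of the constructions -/
theorem step {Y : CG k A X} {β : A → A} {p : I → X} {q : I → G} {N : ℕ} {a : ℕ → X} {b : ℕ → G}
    {x : X} {v : G}
    (h : Same Y C β (fun o : Option (I ⊕ Fin N) => o.elim x (Sum.elim p (fun i : Fin N => a i)))
      (fun o => o.elim v (Sum.elim q (fun i : Fin N => b i)))) :
    Same Y C β (Sum.elim p (fun i : Fin (N + 1) => Function.update a N x i))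
      (Sum.elim q (fun i : Fin (N + 1) => Function.update b N v i)) := by
  let f : I ⊕ Fin (N + 1) → Option (I ⊕ Fin N) :=
    Sum.elim (fun i => some (Sum.inl i)) (Fin.lastCases none (fun i => some (Sum.inr i)))
  convert h.comp f using 1
  · funext o
    rcases o with i | i
    · rfl
    · refine Fin.lastCases ?_ (fun j => ?_) i
      · simp [f]
      · have : (j : ℕ) ≠ N := j.2.ne
        simp [f, Function.update_of_ne this]
  · funext o
    rcases o with i | i
    · rfl
    · refine Fin.lastCases ?_ (fun j => ?_) i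
      · simp [f]
      · have : (j : ℕ) ≠ N := j.2.ne
        simp [f, Function.update_of_ne this]

/-- Extension of a finite map to a countable structure. -/
theorem IsGen.embed (hC : IsGen C Q) [Countable X] (Y : CG k A X) (β : A → A)
    (hY : ∀ x : Fin m → X, Tr Y.arc x → Q (fun p => β (Y.col (fun i => x (p i)))))
    [Finite I] (p : I → X) (q : I → G) (h : Same Y C β p q) :
    ∃ e : X → G, Same Y C β (Sum.elim p id) (Sum.elim q e) := by
  classical
  rcases isEmpty_or_nonempty X with hX | hX
  · refine ⟨isEmptyElim, ?_⟩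
    refine ⟨?_, ?_, ?_⟩
    · intro i j
      rcases i with i | i
      · exact (hX.false (p i)).elim
      · exact (hX.false i).elim
    · intro i j
      rcases i with i | i
      · exact (hX.false (p i)).elim
      · exact (hX.false i).elim
    · intro t ht
      rcases t 0 with i | i
      · exact (hX.false (p i)).elim
      · exact (hX.false i).elim
  obtain ⟨x0⟩ := hX
  obtain ⟨v0, -⟩ := hC.ext X Y β hY I inferInstance p q h x0
  have : Nonempty X := ⟨x0⟩
  obtain ⟨a, ha⟩ := exists_surjective_nat X
  obtain ⟨b, -, h2, -⟩ := exists_seq_ext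
    (fun N b => Same Y C β (Sum.elim p (fun i : Fin N => a i)) (Sum.elim q (fun i : Fin N => b i)))
    (by
      intro N b b' hbb hb
      have : (fun i : Fin N => b' i) = fun i : Fin N => b i := by
        funext i
        exact (hbb i i.2).symm
      rw [this]
      exact hb)
    (fun _ _ => True) 0 (fun _ => v0)
    (by
      refine ⟨?_, ?_, ?_⟩
      · rintro (i | i) (j | j)
        · exact h.eq i j
        · exact j.elim0
        · exact i.elim0
        · exact i.elim0
      · rintro (i | i) (j | j)
        · exact h.arc i j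
        · exact j.elim0
        · exact i.elim0
        · exact i.elim0
      · intro t ht
        have : ∀ i, ∃ j, t i = Sum.inl j := by
          intro i
          rcases t i with j | j
          · exact ⟨j, rfl⟩
          · exact j.elim0
        choose t' ht' using this
        have e : t = fun i => Sum.inl (t' i) := funext ht'
        subst e
        exact h.col t' ht)
    (by
      intro N _ b hb
      obtain ⟨v, hv⟩ := hC.ext X Y β hY _ inferInstance _ _ hb (a N)
      refine ⟨v, trivial, ?_⟩
      have := step (a := a) (b := b) hv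
      rwa [Function.update_eq_self] at this)
  have h3 : Same Y C β (Sum.elim p a) (Sum.elim q b) := same_of_finite (fun N => h2 N (Nat.zero_le _))
  choose idx hidx using ha
  refine ⟨fun x => b (idx x), ?_⟩
  convert h3.comp (Sum.map id idx) using 1
  · funext o
    rcases o with i | x
    · rfl
    · exact (hidx x).symm
  · funext o
    rcases o with i | x <;> rfl

/-- The back and forth argument. -/
theorem IsGen.aut (hC : IsGen C Q) [Countable G] (β : A ≃ A)
    (hβ : ∀ c, Q c → Q (fun p => β (c p))) (hβ' : ∀ c, Q c → Q (fun p => β.symm (c p)))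
    [Finite I] (p q : I → G) (h : Same C C β p q) :
    ∃ σ : G ≃ G, (∀ i, σ (p i) = q i) ∧ Same C C β id σ := by
  classical
  have hY : ∀ x : Fin m → G, Tr C.arc x → Q (fun p => β (C.col (fun i => x (p i)))) :=
    fun x hx => hβ _ (hC.good x hx)
  have hY' : ∀ x : Fin m → G, Tr C.arc x → Q (fun p => β.symm (C.col (fun i => x (p i)))) :=
    fun x hx => hβ' _ (hC.good x hx)
  rcases isEmpty_or_nonempty G with hG | hG
  · refine ⟨Equiv.refl G, fun i => (hG.false (p i)).elim, ⟨fun i => (hG.false i).elim,
      fun i => (hG.false i).elim, fun t => (hG.false (t 0)).elim⟩⟩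
  obtain ⟨e, he⟩ := exists_surjective_nat G
  let R : ℕ → G × G → Prop := fun N c =>
    (∀ j, N = 2 * j → c.1 = e j) ∧ (∀ j, N = 2 * j + 1 → c.2 = e j)
  obtain ⟨b, -, h2, h3⟩ := exists_seq_ext
    (fun N b => Same C C β (Sum.elim p (fun i : Fin N => (b i).1))
      (Sum.elim q (fun i : Fin N => (b i).2)))
    (by
      intro N b b' hbb hb
      have e1 : (fun i : Fin N => (b' i).1) = fun i : Fin N => (b i).1 := by
        funext i
        rw [hbb i i.2]
      have e2 : (fun i : Fin N => (b' i).2) = fun i : Fin N => (b i).2 := by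
        funext i
        rw [hbb i i.2]
      rw [e1, e2]
      exact hb)
    R 0 (fun _ => (e 0, e 0))
    (by
      refine ⟨?_, ?_, ?_⟩
      · rintro (i | i) (j | j)
        · exact h.eq i j
        · exact j.elim0
        · exact i.elim0
        · exact i.elim0
      · rintro (i | i) (j | j)
        · exact h.arc i j
        · exact j.elim0
        · exact i.elim0
        · exact i.elim0
      · intro t ht
        have : ∀ i, ∃ j, t i = Sum.inl j := by
          intro i
          rcases t i with j | j
          · exact ⟨j, rfl⟩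
          · exact j.elim0
        choose t' ht' using this
        have e : t = fun i => Sum.inl (t' i) := funext ht'
        subst e
        exact h.col t' ht)
    (by
      intro N _ b hb
      have hupd : ∀ (x v : G), Same C C β (fun o : Option (I ⊕ Fin N) => o.elim x
            (Sum.elim p (fun i : Fin N => (b i).1)))
          (fun o => o.elim v (Sum.elim q (fun i : Fin N => (b i).2))) →
          Same C C β (Sum.elim p (fun i : Fin (N + 1) => (Function.update b N (x, v) i).1))
            (Sum.elim q (fun i : Fin (N + 1) => (Function.update b N (x, v) i).2)) := by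
        intro x v hxv
        have := step (a := fun i => (b i).1) (b := fun i => (b i).2) hxv
        have e1 : (fun i : Fin (N + 1) => (Function.update b N (x, v) i).1) =
            fun i : Fin (N + 1) => Function.update (fun i => (b i).1) N x i := by
          funext i
          by_cases hi : (i : ℕ) = N
          · rw [hi]; simp
          · simp [Function.update_of_ne hi]
        have e2 : (fun i : Fin (N + 1) => (Function.update b N (x, v) i).2) =
            fun i : Fin (N + 1) => Function.update (fun i => (b i).2) N v i := by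
          funext i
          by_cases hi : (i : ℕ) = N
          · rw [hi]; simp
          · simp [Function.update_of_ne hi]
        rw [e1, e2]
        exact this
      rcases Nat.even_or_odd' N with ⟨j, hj | hj⟩
      · obtain ⟨v, hv⟩ := hC.ext G C β hY _ inferInstance _ _ hb (e j)
        refine ⟨(e j, v), ⟨?_, ?_⟩, hupd _ _ hv⟩
        · intro j' hj'
          have : j = j' := by omega
          rw [this]
        · intro j' hj'
          omega
      · obtain ⟨v, hv⟩ := hC.ext G C β.symm hY' _ inferInstance _ _ hb.symm (e j)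
        refine ⟨(v, e j), ⟨?_, ?_⟩, hupd _ _ ?_⟩
        · intro j' hj'
          omega
        · intro j' hj'
          have : j = j' := by omega
          rw [this]
        · have := hv.symm
          rwa [Equiv.symm_symm] at this)
  have h4 : Same C C β (Sum.elim p (fun i => (b i).1)) (Sum.elim q (fun i => (b i).2)) :=
    same_of_finite (a := fun i => (b i).1) (b := fun i => (b i).2) (fun N => h2 N (Nat.zero_le _))
  have hV : ∀ v, ∃ i, (b i).1 = v := by
    intro v
    obtain ⟨j, rfl⟩ := he v
    exact ⟨2 * j, (h3 _ (Nat.zero_le _)).1 j rfl⟩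
  have hW : ∀ w, ∃ i, (b i).2 = w := by
    intro w
    obtain ⟨j, rfl⟩ := he w
    exact ⟨2 * j + 1, (h3 _ (Nat.zero_le _)).2 j rfl⟩
  choose iV hiV using hV
  choose iW hiW using hW
  have heq : ∀ i j, (b i).1 = (b j).1 ↔ (b i).2 = (b j).2 := fun i j => h4.eq (Sum.inr i) (Sum.inr j)
  have hg : ∀ j, (b (iV (b j).1)).2 = (b j).2 := fun j => (heq _ _).1 (hiV _)
  have hg' : ∀ j, (b (iW (b j).2)).1 = (b j).1 := fun j => (heq _ _).2 (hiW _)
  let g : G ≃ G :=
    { toFun := fun v => (b (iV v)).2
      invFun := fun w => (b (iW w)).1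
      left_inv := fun v => by
        show (b (iW (b (iV v)).2)).1 = v
        rw [hg', hiV]
      right_inv := fun w => by
        show (b (iV (b (iW w)).1)).2 = w
        rw [hg, hiW] }
  refine ⟨g, fun i => ?_, ?_⟩
  · have h5 := h4.eq (Sum.inl i) (Sum.inr (iV (p i)))
    exact (h5.1 (hiV (p i)).symm).symm
  · have h6 := h4.comp (fun v : G => Sum.inr (iV v))
    have e1 : (fun v : G => Sum.elim p (fun i => (b i).1) (Sum.inr (iV v))) = id :=
      funext fun v => hiV v
    rw [e1] at h6
    exact h6

end

end Pool.Agent.H17.FK
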