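import Mathlib
import Pool.Agent.H17.FK.BF
import Pool.Agent.H17.DG.Defs

set_option autoImplicit false

/-!
# Homomorphisms to the generic undirected graph
-/

namespace Pool.Agent.H17.FK

open FirstOrder FirstOrder.Language Pool.Agent.H74.Stub Set
open Pool.Agent.H17.DG (IsHomo)

section

variable {k m : ℕ} {A G : Type} {C : CG k A G} {Q : ((Fin (k + 1) → Fin m) → A) → Prop}

theorem IsGen.embed' (hC : IsGen C Q) {X : Type} [Countable X] (Y : CG k A X) (hY : Y.Good Q) :
    ∃ e : X → G, Same Y C id id e := by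
  obtain ⟨e, he⟩ := hC.embed Y id hY (I := Empty) (fun i => i.elim) (fun i => i.elim)
    ⟨fun i => i.elim, fun i => i.elim, fun t => (t 0).elim⟩
  refine ⟨e, ?_⟩
  have := he.comp (fun x : X => (Sum.inr x : Empty ⊕ X))
  exact this

theorem IsGen.csp_iff (hC : IsGen C Q) {X : Type} [Countable X] (F : X → X → Prop) :
    (∃ h : X → G, IsHomo F C.arc h) ↔ (∀ x, ¬ F x x) ∧
      ∃ c : (Fin (k + 1) → X) → A, ∀ x : Fin m → X,
        (∀ i j, i ≠ j → F (x i) (x j) ∨ F (x j) (x i)) → Q (fun p => c (fun i => x (p i))) := by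
  constructor
  · rintro ⟨h, hh⟩
    refine ⟨fun x h1 => C.irrefl _ (hh _ _ h1), fun t => C.col (fun i => h (t i)), fun x hx => ?_⟩
    refine hC.good (fun i => h (x i)) fun i j hij => ?_
    rcases hx i j hij with h1 | h1
    · exact hh _ _ h1
    · exact C.symm _ _ (hh _ _ h1)
  · rintro ⟨h1, c, hc⟩
    obtain ⟨e, he⟩ := hC.embed' (X := X) ⟨fun x y => F x y ∨ F y x, fun x y h => h.symm,
      fun x h => h.elim (h1 x) (h1 x), c⟩ hc
    exact ⟨e, fun u v huv => (he.arc u v).1 (Or.inl huv)⟩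

end

end Pool.Agent.H17.FK
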