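import Mathlib
import Pool.Agent.H17.FK.Csp
import Pool.Agent.H17.DG.Homog

set_option autoImplicit false

/-!
# Homogeneity of the generic undirected graph
-/

namespace Pool.Agent.H17.FK

open FirstOrder FirstOrder.Language Pool.Agent.H74.Stub Set
open Pool.Agent.H17.DG (IsHomo IsoT homog_tuple homog_of_tuple RelB LBp finRel_LBp bl unbl bl_unbl
  unbl_bl FinRel FinitelyBounded IsReduct ArcRel Dig digStr IsAut KHomogeneous NoAlgebraicity)

/-- The expansion. -/
@[reducible] def strB (LB : FirstOrder.Language.{0, 0}) {k : ℕ} {A G : Type} [LB.Structure A]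
    (C : CG k A G) : (LBp LB k).Structure G where
  funMap := fun f => f.elim
  RelMap := fun {n} R v => match n, R, v with
    | _, RelB.arc, v => C.arc (v 0) (v 1)
    | _, RelB.same, v => Tr C.arc (bl v 0) ∧ Tr C.arc (bl v 1) ∧ C.col (bl v 0) = C.col (bl v 1)
    | _, RelB.pull R, v => (∀ i, Tr C.arc (bl v i)) ∧ Structure.RelMap R (fun i => C.col (bl v i))

section

variable {LB : FirstOrder.Language.{0, 0}} {A : Type} [LB.Structure A]
  {k m : ℕ} {G : Type} {C : CG k A G} {Q : ((Fin (k + 1) → Fin m) → A) → Prop}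

/-- the consequences of an isomorphism of tuples of the expansion -/
theorem isoT_unfold {H : Type} {D : CG k A H} {I : Type} {a : I → G} {b : I → H}
    (h : @IsoT (LBp LB k) G H (strB LB C) (strB LB D) I a b) :
    (∀ i j, C.arc (a i) (a j) ↔ D.arc (b i) (b j)) ∧
    (∀ t t' : Fin (k + 1) → I, Tr C.arc (fun i => a (t i)) → Tr C.arc (fun i => a (t' i)) →
      (C.col (fun i => a (t i)) = C.col (fun i => a (t' i)) ↔
        D.col (fun i => b (t i)) = D.col (fun i => b (t' i)))) ∧
    (∀ (n : ℕ) (R : LB.Relations n) (t : Fin n → Fin (k + 1) → I),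
      (∀ i, Tr C.arc (fun j => a (t i j))) →
      (Structure.RelMap R (fun i => C.col (fun j => a (t i j))) ↔
        Structure.RelMap R (fun i => D.col (fun j => b (t i j))))) := by
  let _ : (LBp LB k).Structure G := strB LB C
  let _ : (LBp LB k).Structure H := strB LB D
  have harc : ∀ i j, C.arc (a i) (a j) ↔ D.arc (b i) (b j) := fun i j =>
    h.rel (n := 2) RelB.arc ![i, j]
  have htr : ∀ {n : ℕ} (t : Fin n → I), Tr C.arc (fun i => a (t i)) ↔
      Tr D.arc (fun i => b (t i)) := fun t =>
    ⟨fun h i j hij => (harc _ _).1 (h i j hij), fun h i j hij => (harc _ _).2 (h i j hij)⟩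
  refine ⟨harc, ?_, ?_⟩
  · intro t t' ht ht'
    have h1 := h.rel (n := 2 * (k + 1)) RelB.same (unbl ![t, t'])
    have e1 : bl (fun i => a (unbl ![t, t'] i)) 0 = fun i => a (t i) := by
      funext j
      have := congrFun (congrFun (bl_unbl ![t, t']) 0) j
      exact congrArg a this
    have e2 : bl (fun i => a (unbl ![t, t'] i)) 1 = fun i => a (t' i) := by
      funext j
      have := congrFun (congrFun (bl_unbl ![t, t']) 1) j
      exact congrArg a this
    have e3 : bl (fun i => b (unbl ![t, t'] i)) 0 = fun i => b (t i) := by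
      funext j
      have := congrFun (congrFun (bl_unbl ![t, t']) 0) j
      exact congrArg b this
    have e4 : bl (fun i => b (unbl ![t, t'] i)) 1 = fun i => b (t' i) := by
      funext j
      have := congrFun (congrFun (bl_unbl ![t, t']) 1) j
      exact congrArg b this
    have h2 : (Tr C.arc (bl (fun i => a (unbl ![t, t'] i)) 0) ∧
        Tr C.arc (bl (fun i => a (unbl ![t, t'] i)) 1) ∧
        C.col (bl (fun i => a (unbl ![t, t'] i)) 0) = C.col (bl (fun i => a (unbl ![t, t'] i)) 1)) ↔
        (Tr D.arc (bl (fun i => b (unbl ![t, t'] i)) 0) ∧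
        Tr D.arc (bl (fun i => b (unbl ![t, t'] i)) 1) ∧
        D.col (bl (fun i => b (unbl ![t, t'] i)) 0) =
          D.col (bl (fun i => b (unbl ![t, t'] i)) 1)) := h1
    rw [e1, e2, e3, e4] at h2
    constructor
    · intro h3
      exact (h2.1 ⟨ht, ht', h3⟩).2.2
    · intro h3
      exact (h2.2 ⟨(htr t).1 ht, (htr t').1 ht', h3⟩).2.2
  · intro n R t ht
    have h1 := h.rel (n := n * (k + 1)) (RelB.pull R) (unbl t)
    have e1 : ∀ i, bl (fun i => a (unbl t i)) i = fun j => a (t i j) := by
      intro i
      funext j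
      exact congrArg a (congrFun (congrFun (bl_unbl t) i) j)
    have e2 : ∀ i, bl (fun i => b (unbl t i)) i = fun j => b (t i j) := by
      intro i
      funext j
      exact congrArg b (congrFun (congrFun (bl_unbl t) i) j)
    have h2 : ((∀ i, Tr C.arc (bl (fun i => a (unbl t i)) i)) ∧
        Structure.RelMap R (fun i => C.col (bl (fun i => a (unbl t i)) i))) ↔
        ((∀ i, Tr D.arc (bl (fun i => b (unbl t i)) i)) ∧
        Structure.RelMap R (fun i => D.col (bl (fun i => b (unbl t i)) i))) := h1
    simp only [e1, e2] at h2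
    constructor
    · intro h3
      exact (h2.1 ⟨ht, h3⟩).2
    · intro h3
      exact (h2.2 ⟨fun i => (htr (t i)).1 (ht i), h3⟩).2

/-- The converse: a type preserving map whose change of colours is an embedding is an
isomorphism of tuples. -/
theorem isoT_of {H : Type} {D : CG k A H} {I : Type} {a : I → G} {b : I → H} {β : A → A}
    (hβ : Function.Injective β)
    (hβ' : ∀ {n : ℕ} (R : LB.Relations n) (x : Fin n → A), Structure.RelMap R x ↔
      Structure.RelMap R (fun i => β (x i))) (h : Same C D β a b) :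
    @IsoT (LBp LB k) G H (strB LB C) (strB LB D) I a b := by
  have htr : ∀ {n : ℕ} (t : Fin n → I), Tr C.arc (fun i => a (t i)) ↔
      Tr D.arc (fun i => b (t i)) := fun t =>
    ⟨fun h' i j hij => (h.arc _ _).1 (h' i j hij), fun h' i j hij => (h.arc _ _).2 (h' i j hij)⟩
  refine @IsoT.mk (LBp LB k) G H (strB LB C) (strB LB D) I a b h.eq ?_
  intro n R t
  cases R with
  | arc => exact h.arc _ _
  | same =>
    show (_ ∧ _ ∧ _) ↔ (_ ∧ _ ∧ _)
    have h1 := htr (bl t 0)
    have h2 := htr (bl t 1)
    constructor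
    · rintro ⟨h3, h4, h5⟩
      refine ⟨h1.1 h3, h2.1 h4, ?_⟩
      have e1 := h.col (bl t 0) h3
      have e2 := h.col (bl t 1) h4
      exact e1.trans ((congrArg β h5).trans e2.symm)
    · rintro ⟨h3, h4, h5⟩
      have h3' := h1.2 h3
      have h4' := h2.2 h4
      refine ⟨h3', h4', hβ ?_⟩
      have e1 := h.col (bl t 0) h3'
      have e2 := h.col (bl t 1) h4'
      exact e1.symm.trans (h5.trans e2)
  | pull R =>
    show (_ ∧ _) ↔ (_ ∧ _)
    have h1 : (∀ i, Tr C.arc (fun j => a (bl t i j))) ↔ ∀ i, Tr D.arc (fun j => b (bl t i j)) :=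
      forall_congr' fun i => htr (bl t i)
    constructor
    · rintro ⟨h3, h4⟩
      refine ⟨h1.1 h3, ?_⟩
      have e1 : (fun i => D.col (fun j => b (bl t i j))) =
          fun i => β (C.col (fun j => a (bl t i j))) := funext fun i => h.col (bl t i) (h3 i)
      show Structure.RelMap R (fun i => D.col (fun j => b (bl t i j)))
      rw [e1]
      exact (hβ' R _).1 h4
    · rintro ⟨h3, h4⟩
      have h3' := h1.2 h3
      refine ⟨h3', ?_⟩
      have e1 : (fun i => D.col (fun j => b (bl t i j))) =
          fun i => β (C.col (fun j => a (bl t i j))) := funext fun i => h.col (bl t i) (h3' i)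
      have h5 : Structure.RelMap R (fun i => D.col (fun j => b (bl t i j))) := h4
      rw [e1] at h5
      exact (hβ' R _).2 h5

/-- An isomorphism of tuples changes the colours by an automorphism of the finitely bounded
structure. -/
theorem same_of_isoT [LB.IsRelational] (hB : LB.IsUltrahomogeneous A) {H : Type} {D : CG k A H}
    {I : Type} [Finite I] {a : I → G} {b : I → H}
    (h : @IsoT (LBp LB k) G H (strB LB C) (strB LB D) I a b) :
    ∃ g : LB.Equiv A A, Same C D g a b := by
  let _ : (LBp LB k).Structure G := strB LB C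
  let _ : (LBp LB k).Structure H := strB LB D
  obtain ⟨h1, h2, h3⟩ := isoT_unfold h
  let T := {t : Fin (k + 1) → I // Tr C.arc (fun i => a (t i))}
  obtain ⟨g, hg⟩ := homog_tuple hB (fun t : T => C.col (fun i => a (t.1 i)))
    (fun t : T => D.col (fun i => b (t.1 i)))
    ⟨fun t t' => h2 t.1 t'.1 t.2 t'.2, fun R t => h3 _ R (fun i => (t i).1) (fun i => (t i).2)⟩
  exact ⟨g, h.eq, h1, fun t ht => (hg ⟨t, ht⟩).symm⟩

/-- `Q` is invariant under the automorphisms -/
def Inv (LB : FirstOrder.Language.{0, 0}) {A : Type} [LB.Structure A] {k m : ℕ}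
    (Q : ((Fin (k + 1) → Fin m) → A) → Prop) : Prop :=
  ∀ (g : LB.Equiv A A) (c : (Fin (k + 1) → Fin m) → A), Q c → Q (fun p => g (c p))

theorem aut_of_same [LB.IsRelational] (hC : IsGen C Q) [Countable G]
    (hQ : Inv LB Q) (g : LB.Equiv A A) {I : Type} [Finite I] {a b : I → G}
    (h : Same C C g a b) : ∃ σ : G ≃ G, (∀ i, σ (a i) = b i) ∧ Same C C g id σ := by
  have h' : Same C C g.toEquiv a b := h
  obtain ⟨σ, h1, h2⟩ := hC.aut g.toEquiv (hQ g) (hQ g.symm) a b h'
  exact ⟨σ, h1, h2⟩

theorem homogB [LB.IsRelational] (hB : LB.IsUltrahomogeneous A) (hC : IsGen C Q)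
    [Countable G] (hQ : Inv LB Q) :
    @FirstOrder.Language.IsUltrahomogeneous (LBp LB k) G (strB LB C) := by
  let _ := strB LB C
  apply homog_of_tuple
  intro I hI a b hab
  obtain ⟨g, hg⟩ := same_of_isoT hB hab
  obtain ⟨σ, h1, h2⟩ := aut_of_same hC hQ g hg
  have h3 := isoT_of (LB := LB) g.injective (fun R x => (g.map_rel R x).symm) h2
  exact ⟨{ toEquiv := σ
           map_fun' := fun f => isEmptyElim f
           map_rel' := fun R x => (h3.rel R x).symm }, h1⟩

theorem reductB : @IsReduct Dig (LBp LB k) G (digStr C.arc) (strB LB C) := by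
  let _ := strB LB C
  let _ := digStr C.arc
  refine ⟨fun n R => match n, R with | _, ArcRel.arc => RelB.arc, ?_, ?_⟩
  · intro n R R' h
    cases R
    cases R'
    rfl
  · intro n R x
    cases R with
    | arc => exact Iff.rfl

/-! ### `k`-homogeneity and algebraicity -/

theorem isAut_of_same {β : A → A} {σ : G ≃ G} (h : Same C C β id σ) : IsAut C.arc σ :=
  fun u v => (h.arc u v).symm

theorem kHomog (hC : IsGen C Q) [Countable G] : KHomogeneous k C.arc := by
  intro n x y hn hx hy hxy
  have h : Same C C (Equiv.refl A) x y := by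
    refine ⟨fun i j => ?_, hxy, fun t ht => ?_⟩
    · rw [hx.eq_iff, hy.eq_iff]
    · exfalso
      have h1 : Function.Injective t := by
        intro i j hij
        by_contra h2
        have h3 := ht i j h2
        have h4 : C.arc (x (t i)) (x (t j)) := h3
        rw [hij] at h4
        exact absurd h4 (C.irrefl _)
      have := Fintype.card_le_of_injective t h1
      simp only [Fintype.card_fin] at this
      omega
  obtain ⟨σ, h1, h2⟩ := hC.aut (Equiv.refl A) (fun c hc => hc) (fun c hc => hc) x y h
  exact ⟨σ, isAut_of_same h2, h1⟩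

theorem noAlg (hC : IsGen C Q) [Countable G] : NoAlgebraicity C.arc := by
  classical
  intro S x hx hfin
  let Ys : Finset G := hfin.toFinset
  have hYs : ∀ y, y ∈ Ys ↔ ∃ g : G ≃ G, IsAut C.arc g ∧ (∀ s ∈ S, g s = s) ∧ g x = y := by
    intro y
    rw [Set.Finite.mem_toFinset, mem_ofPred_eq]
  let rep : Option G → G := fun o => o.getD x
  let ar : Option G → Option G → Prop := fun a b =>
    match a, b with
    | some g, some g' => C.arc g g'
    | some g, none => g ∈ S ∧ C.arc g x
    | none, some g => g ∈ S ∧ C.arc x g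
    | none, none => False
  have har : ∀ a b, ar a b → C.arc (rep a) (rep b) := by
    rintro (_ | a) (_ | b) h
    · exact h.elim
    · exact h.2
    · exact h.2
    · exact h
  have hars : ∀ a b, ar a b → ar b a := by
    rintro (_ | a) (_ | b) h
    · exact h.elim
    · exact ⟨h.1, C.symm _ _ h.2⟩
    · exact ⟨h.1, C.symm _ _ h.2⟩
    · exact C.symm _ _ h
  let Y : CG k A (Option G) :=
    { arc := ar
      symm := hars
      irrefl := fun a h1 => C.irrefl _ (har _ _ h1)
      col := fun t => C.col (fun i => rep (t i)) }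
  have hY : ∀ z : Fin m → Option G, Tr Y.arc z →
      Q (fun p => id (Y.col (fun i => z (p i)))) := by
    intro z hz
    exact hC.good (fun i => rep (z i)) (fun i j hij => har _ _ (hz i j hij))
  let I := {g : G // g ∈ S ∨ g ∈ Ys}
  have hI : Finite I := by
    have : {g : G | g ∈ S ∨ g ∈ Ys}.Finite := (S.finite_toSet).union (Ys.finite_toSet)
    exact this.to_subtype
  obtain ⟨v, hv⟩ := hC.ext (Option G) Y id hY I hI (fun i => some i.1) (fun i => i.1)
    ⟨fun i j => ⟨fun h => Option.some.inj h, fun h => congrArg some h⟩, fun i j => Iff.rfl,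
      fun t _ => rfl⟩ none
  -- `v` and `x` have the same type over `S`
  have hvne : ∀ i : I, v ≠ i.1 := by
    intro i h
    have := (hv.eq none (some i)).2 h
    exact absurd this (by simp)
  have hsame : Same C C (Equiv.refl A) (fun o : Option {g // g ∈ S} => o.elim x (fun s => s.1))
      (fun o : Option {g // g ∈ S} => o.elim v (fun s => s.1)) := by
    let f : Option {g // g ∈ S} → Option I := fun o => o.map (fun s => ⟨s.1, Or.inl s.2⟩)
    have h1 := hv.comp f
    have e1 : (fun o => (f o).elim v (fun i : I => i.1)) =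
        fun o : Option {g // g ∈ S} => o.elim v (fun s => s.1) := by
      funext o
      cases o <;> rfl
    have e2 : ∀ o, rep ((f o).elim none (fun i : I => some i.1)) = o.elim x (fun s => s.1) := by
      intro o
      cases o <;> rfl
    have hxs : ∀ s : {g // g ∈ S}, x ≠ s.1 := fun s h => hx (h ▸ s.2)
    rw [e1] at h1
    refine ⟨?_, ?_, ?_⟩
    · intro o o'
      rw [← h1.eq]
      rcases o with _ | s <;> rcases o' with _ | s'
      · exact ⟨fun _ => rfl, fun _ => rfl⟩
      · exact ⟨fun h => absurd h (hxs _), fun h => absurd h (by simp [f])⟩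
      · exact ⟨fun h => absurd h.symm (hxs _), fun h => absurd h (by simp [f])⟩
      · exact ⟨fun h => congrArg some h, fun h => Option.some.inj h⟩
    · intro o o'
      rw [← h1.arc]
      rcases o with _ | s <;> rcases o' with _ | s'
      · exact ⟨fun h => absurd h (C.irrefl _), fun h => h.elim⟩
      · exact ⟨fun h => ⟨s'.2, h⟩, fun h => h.2⟩
      · exact ⟨fun h => ⟨s.2, h⟩, fun h => h.2⟩
      · exact Iff.rfl
    · intro t ht
      have key : ∀ o o' : Option {g // g ∈ S}, C.arc (o.elim x (fun s => s.1))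
          (o'.elim x (fun s => s.1)) → ar ((f o).elim none (fun i : I => some i.1))
          ((f o').elim none (fun i : I => some i.1)) := by
        rintro (_ | s) (_ | s') h3
        · exact absurd h3 (C.irrefl _)
        · exact ⟨s'.2, h3⟩
        · exact ⟨s.2, h3⟩
        · exact h3
      have h2 : Tr Y.arc (fun i => (f (t i)).elim none (fun i : I => some i.1)) :=
        fun i j hij => key _ _ (ht i j hij)
      have h4 := h1.col t h2
      rw [h4]
      show C.col _ = C.col _
      congr 1
      funext i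
      exact e2 (t i)
  obtain ⟨σ, h1, h2⟩ := hC.aut (Equiv.refl A) (fun c hc => hc) (fun c hc => hc) _ _ hsame
  have h3 : v ∈ Ys := (hYs v).2 ⟨σ, isAut_of_same h2, fun s hs => h1 (some ⟨s, hs⟩), h1 none⟩
  exact hvne ⟨v, Or.inr h3⟩ rfl

end

end Pool.Agent.H17.FK
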