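import Mathlib
import Pool.Agent.H17.FK.Csp
import Pool.Agent.H17.DG.Glue2

set_option autoImplicit false

/-!
# Gluing copies of a finite structure along a triangle-free oriented graph
-/

namespace Pool.Agent.H17.FK

open Pool.Agent.H17.DG (pat pat_surj Cst cst_pat Gam pt emb emb_pat emb_cases pt_eq pt_cst emb_inj
  shared ne_of_ar InP Vert vert_unique vert_inP inP_pt adj_of)

section

variable {k m n l : ℕ} {A G V : Type} {C : CG k A G}
  {ρ : (Fin 2 × Fin n) ⊕ Fin l → Fin 6 → G} {π : Fin n → Fin 3 → G} {Ar : V → V → Prop}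
  {Q : ((Fin (k + 1) → Fin m) → A) → Prop}

/-- edges between rows -/
def RA (C : CG k A G) (r r' : Fin 6 → G) : Prop := ∀ c, C.arc (r c) (r' c)

theorem ra_pat {r r' : Fin 3 → G} {a : Fin 2}
    (h : RA C (fun c => r (pat a c)) (fun c => r' (pat a c))) (x : Fin 3) :
    C.arc (r x) (r' x) := by
  obtain ⟨c, rfl⟩ := pat_surj a x
  exact h c

theorem transfer (hO : ∀ v w, Ar v w → ¬ Ar w v) {e f : Fin 2 → V}
    (he : Ar (e 0) (e 1)) (hf : Ar (f 0) (f 1)) {y y' z z' : Fin 6 → G}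
    (h1 : emb π e y = emb π f z) (h2 : emb π e y' = emb π f z') (h : RA C y y') : RA C z z' := by
  by_cases hef : e = f
  · subst hef
    rw [← emb_inj π (ne_of_ar hO he) h1, ← emb_inj π (ne_of_ar hO he) h2]
    exact h
  · obtain ⟨idx, a, b, h3, h4, -⟩ := shared π hO he hf hef ![y, y'] ![z, z'] (by
      intro j
      match j with
      | 0 => exact h1
      | 1 => exact h2)
    have e1 : y = _ := h3 0
    have e2 : y' = _ := h3 1
    have e3 : z = _ := h4 0
    have e4 : z' = _ := h4 1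
    rw [e1, e2] at h
    rw [e3, e4]
    intro c
    exact ra_pat h _

/-- arcs of the glued structure -/
def AG (C : CG k A G) (ρ : (Fin 2 × Fin n) ⊕ Fin l → Fin 6 → G) (π : Fin n → Fin 3 → G)
    (Ar : V → V → Prop) (q q' : Gam V G) : Prop :=
  ∃ (e : Fin 2 → V) (y y' : (Fin 2 × Fin n) ⊕ Fin l), Ar (e 0) (e 1) ∧ q = emb π e (ρ y) ∧
    q' = emb π e (ρ y') ∧ RA C (ρ y) (ρ y')

/-- A clique of the glued structure lies in one piece. -/
theorem clique_inP (hρ : ∀ a i, ρ (Sum.inl (a, i)) = fun c => π i (pat a c))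
    (hO : ∀ v w, Ar v w → ¬ Ar w v)
    (hT : ∀ x y z, (Ar x y ∨ Ar y x) → (Ar y z ∨ Ar z y) → (Ar x z ∨ Ar z x) → False)
    {N : ℕ} (hN : 2 ≤ N) (x : Fin N → Gam V G) (hx : Tr (AG C ρ π Ar) x) :
    ∃ e : Fin 2 → V, Ar (e 0) (e 1) ∧ ∀ j, InP ρ π e (x j) := by
  have hnt : Nontrivial (Fin N) := Fin.nontrivial_iff_two_le.2 hN
  have f1 : ∀ i j, i ≠ j → ∃ f : Fin 2 → V, Ar (f 0) (f 1) ∧ InP ρ π f (x i) ∧
      InP ρ π f (x j) := by
    intro i j hij
    obtain ⟨f, y, y', h1, h2, h3, -⟩ := hx i j hij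
    exact ⟨f, h1, ⟨y, h2⟩, ⟨y', h3⟩⟩
  by_cases h1 : ∃ j0 v r, x j0 = Sum.inr (v, r)
  · obtain ⟨j0, v, r, h0⟩ := h1
    have key : ∀ f : Fin 2 → V, InP ρ π f (x j0) → (f 0, f 1) = v := by
      rintro f ⟨y, hy⟩
      rw [h0] at hy
      rcases emb_cases π f (ρ y) with ⟨a, i, -, h2⟩ | h2
      · rw [h2] at hy
        exact absurd hy (by simp)
      · rw [h2] at hy
        exact (Prod.mk.inj (Sum.inr.inj hy)).1.symm
    obtain ⟨j1, hj1⟩ := exists_ne j0
    obtain ⟨e, he, he0, -⟩ := f1 j0 j1 hj1.symm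
    refine ⟨e, he, fun j => ?_⟩
    by_cases hj : j = j0
    · rw [hj]
      exact he0
    · obtain ⟨f, -, hf0, hf1⟩ := f1 j0 j (Ne.symm hj)
      have : f = e := by
        have h2 := Prod.mk.inj ((key f hf0).trans (key e he0).symm)
        funext x
        match x with
        | 0 => exact h2.1
        | 1 => exact h2.2
      rw [← this]
      exact hf1
  · have hform : ∀ j, ∃ (u : V) (i : Fin n), x j = Sum.inl (pt u (π i)) := by
      intro j
      obtain ⟨j', hj'⟩ := exists_ne j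
      obtain ⟨f, -, ⟨y, hy⟩, -⟩ := f1 j j' hj'.symm
      rcases emb_cases π f (ρ y) with ⟨a, i, -, h2⟩ | h2
      · exact ⟨f a, i, hy.trans h2⟩
      · exact absurd ⟨j, _, _, hy.trans h2⟩ h1
    -- constant points and points at the vertex `e a` are in the piece of `e`
    have hin : ∀ (e : Fin 2 → V) (j : Fin N), (∀ u, Vert π (x j) u → ∃ a, e a = u) →
        InP ρ π e (x j) := by
      intro e j h
      obtain ⟨u, i, hi⟩ := hform j
      by_cases hc : Cst (π i)
      · rw [hi, pt_cst (w := e 0) hc]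
        exact inP_pt hρ e 0 i
      · obtain ⟨a, ha⟩ := h u ⟨i, hc, hi⟩
        rw [hi, ← ha]
        exact inP_pt hρ e a i
    by_cases h2 : ∃ j0 u, Vert π (x j0) u
    · obtain ⟨j0, u, hu⟩ := h2
      by_cases h3 : ∃ j1 u', Vert π (x j1) u' ∧ u' ≠ u
      · obtain ⟨j1, u', hu', hne⟩ := h3
        have hj : j0 ≠ j1 := by
          intro h
          rw [← h] at hu'
          exact hne (vert_unique hu' hu)
        obtain ⟨e, he, he0, he1⟩ := f1 j0 j1 hj
        obtain ⟨a, ha⟩ := vert_inP hu he0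
        obtain ⟨b, hb⟩ := vert_inP hu' he1
        have hadj : Ar u u' ∨ Ar u' u := by
          have := adj_of he (a := a) (b := b) (by rw [ha, hb]; exact hne.symm)
          rwa [ha, hb] at this
        refine ⟨e, he, fun j => hin e j fun v hv => ?_⟩
        by_cases hv1 : v = u
        · exact ⟨a, ha.trans hv1.symm⟩
        by_cases hv2 : v = u'
        · exact ⟨b, hb.trans hv2.symm⟩
        exfalso
        have hj0 : j ≠ j0 := by
          intro h
          rw [h] at hv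
          exact hv1 (vert_unique hv hu)
        have hj1 : j ≠ j1 := by
          intro h
          rw [h] at hv
          exact hv2 (vert_unique hv hu')
        obtain ⟨f, hf, hf0, hf1⟩ := f1 j j0 hj0
        obtain ⟨g, hg, hg0, hg1⟩ := f1 j j1 hj1
        obtain ⟨a1, ha1⟩ := vert_inP hv hf0
        obtain ⟨b1, hb1⟩ := vert_inP hu hf1
        obtain ⟨a2, ha2⟩ := vert_inP hv hg0
        obtain ⟨b2, hb2⟩ := vert_inP hu' hg1
        have hadj1 : Ar v u ∨ Ar u v := by
          have := adj_of hf (a := a1) (b := b1) (by rw [ha1, hb1]; exact hv1)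
          rwa [ha1, hb1] at this
        have hadj2 : Ar v u' ∨ Ar u' v := by
          have := adj_of hg (a := a2) (b := b2) (by rw [ha2, hb2]; exact hv2)
          rwa [ha2, hb2] at this
        exact hT v u u' hadj1 hadj hadj2
      · push Not at h3
        obtain ⟨j1, hj1⟩ := exists_ne j0
        obtain ⟨e, he, he0, -⟩ := f1 j0 j1 hj1.symm
        obtain ⟨a, ha⟩ := vert_inP hu he0
        refine ⟨e, he, fun j => hin e j fun v hv => ⟨a, ?_⟩⟩
        rw [ha]
        by_contra h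
        exact h (h3 j v hv).symm
    · push Not at h2
      obtain ⟨j0, j1, hj⟩ := exists_pair_ne (Fin N)
      obtain ⟨e, he, -, -⟩ := f1 j0 j1 hj
      exact ⟨e, he, fun j => hin e j fun v hv => absurd hv (h2 j v)⟩

/-- Gluing. -/
theorem IsGen.glue (hC : IsGen C Q) [Nonempty A] [Countable G] [Countable V] (hm : 2 ≤ m)
    (hρ : ∀ a i, ρ (Sum.inl (a, i)) = fun c => π i (pat a c))
    (hO : ∀ v w, Ar v w → ¬ Ar w v)
    (hT : ∀ x y z, (Ar x y ∨ Ar y x) → (Ar y z ∨ Ar z y) → (Ar x z ∨ Ar z x) → False)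
    (t : V → (Fin (k + 1) → Fin n) → A)
    (s : (Fin 2 → V) → (Fin (k + 1) → (Fin 2 × Fin n) ⊕ Fin l) → A)
    (hs1 : ∀ e : Fin 2 → V, Ar (e 0) (e 1) → ∀ a τ, s e (fun i => Sum.inl (a, τ i)) = t (e a) τ)
    (hs2 : ∀ e : Fin 2 → V, Ar (e 0) (e 1) → ∀ σ σ', (∀ i, ρ (σ i) = ρ (σ' i)) →
      s e σ = s e σ')
    (hs3 : ∀ e : Fin 2 → V, Ar (e 0) (e 1) → ∀ x : Fin m → (Fin 2 × Fin n) ⊕ Fin l,
      (∀ i j, i ≠ j → RA C (ρ (x i)) (ρ (x j))) → Q (fun p => s e (fun i => x (p i))))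
    (ht : ∀ e f : Fin 2 → V, Ar (e 0) (e 1) → Ar (f 0) (f 1) → ∀ τ, (∀ i, Cst (π (τ i))) →
      t (e 0) τ = t (f 0) τ) :
    ∃ Φ : V → Fin n → G, ∀ e : Fin 2 → V, Ar (e 0) (e 1) →
      ∃ H : (Fin 2 × Fin n) ⊕ Fin l → G, (∀ a i, H (Sum.inl (a, i)) = Φ (e a) i) ∧
        (∀ y y', ρ y = ρ y' → H y = H y') ∧ (∀ y y', RA C (ρ y) (ρ y') → C.arc (H y) (H y')) := by
  classical
  -- consistency of the colourings
  have cons : ∀ e f : Fin 2 → V, Ar (e 0) (e 1) → Ar (f 0) (f 1) → ∀ σ σ',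
      (∀ j, emb π e (ρ (σ j)) = emb π f (ρ (σ' j))) → s e σ = s f σ' := by
    intro e f he hf σ σ' h
    by_cases hef : e = f
    · subst hef
      exact hs2 e he σ σ' fun i => emb_inj π (ne_of_ar hO he) (h i)
    · obtain ⟨idx, a, b, h3, h4, h5⟩ := shared π hO he hf hef (fun j => ρ (σ j))
        (fun j => ρ (σ' j)) h
      have key : ∀ (e : Fin 2 → V), Ar (e 0) (e 1) → ∀ σ a, (∀ j, ρ (σ j) =
          fun c => π (idx j) (pat a c)) → s e σ = t (e a) idx := by
        intro e he σ a h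
        rw [← hs1 e he a idx]
        exact hs2 e he _ _ fun i => by rw [hρ, h]
      rcases h5 with h5 | h5
      · rw [key e he σ a h3, key f hf σ' b h4, h5]
      · rw [key e he σ 0 (fun j => by rw [h3]; exact cst_pat (h5 j) _ _),
          key f hf σ' 0 (fun j => by rw [h4]; exact cst_pat (h5 j) _ _)]
        exact ht e f he hf idx h5
  let cl : (Fin (k + 1) → Gam V G) → A := fun τ =>
    if h : ∃ (p : (Fin 2 → V) × (Fin (k + 1) → (Fin 2 × Fin n) ⊕ Fin l)),
      Ar (p.1 0) (p.1 1) ∧ ∀ j, τ j = emb π p.1 (ρ (p.2 j))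
    then s h.choose.1 h.choose.2 else Classical.arbitrary A
  have hcl : ∀ e : Fin 2 → V, Ar (e 0) (e 1) → ∀ σ, cl (fun j => emb π e (ρ (σ j))) = s e σ := by
    intro e he σ
    have h : ∃ (p : (Fin 2 → V) × (Fin (k + 1) → (Fin 2 × Fin n) ⊕ Fin l)),
      Ar (p.1 0) (p.1 1) ∧ ∀ j, (fun j => emb π e (ρ (σ j))) j = emb π p.1 (ρ (p.2 j)) :=
      ⟨(e, σ), he, fun j => rfl⟩
    have h1 : cl (fun j => emb π e (ρ (σ j))) = s h.choose.1 h.choose.2 := dif_pos h
    rw [h1]
    exact (cons _ _ he h.choose_spec.1 _ _ h.choose_spec.2).symm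
  let Y : CG k A (Gam V G) :=
    { arc := AG C ρ π Ar
      symm := by
        rintro q q' ⟨e, y, y', he, h1, h2, h3⟩
        exact ⟨e, y', y, he, h2, h1, fun c => C.symm _ _ (h3 c)⟩
      irrefl := by
        rintro q ⟨e, y, y', he, h1, h2, h3⟩
        have := emb_inj π (ne_of_ar hO he) (h1.symm.trans h2)
        rw [this] at h3
        exact C.irrefl _ (h3 0)
      col := cl }
  have hY : Y.Good Q := by
    intro x hx
    obtain ⟨e, he, hin⟩ := clique_inP hρ hO hT hm x hx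
    choose y hy using hin
    have h1 : ∀ i j, i ≠ j → RA C (ρ (y i)) (ρ (y j)) := by
      intro i j hij
      obtain ⟨f, z, z', hf, h4, h5, h6⟩ := hx i j hij
      exact transfer hO hf he (h4.symm.trans (hy i)) (h5.symm.trans (hy j)) h6
    have h2 : (fun p : Fin (k + 1) → Fin m => Y.col (fun i => x (p i))) =
        fun p => s e (fun i => y (p i)) := by
      funext p
      rw [← hcl e he (fun i => y (p i))]
      show cl _ = cl _
      congr 1
      funext i
      exact hy (p i)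
    rw [h2]
    exact hs3 e he y h1
  obtain ⟨h, hh⟩ := hC.embed' Y hY
  refine ⟨fun v i => h (Sum.inl (pt v (π i))), fun e he => ⟨fun y => h (emb π e (ρ y)), ?_, ?_, ?_⟩⟩
  · intro a i
    show h (emb π e (ρ (Sum.inl (a, i)))) = _
    rw [hρ, emb_pat]
  · intro y y' hyy
    show h (emb π e (ρ y)) = h (emb π e (ρ y'))
    rw [hyy]
  · intro y y' hyy
    exact (hh.arc _ _).1 ⟨e, y, y', he, rfl, rfl, hyy⟩

end

end Pool.Agent.H17.FK
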