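import Mathlib
import Pool.Agent.H17.FK.Glue
import Pool.Agent.H17.DG.K3

set_option autoImplicit false

/-!
# If the generic undirected graph pp-constructs `K₃` then so does the template
-/

namespace Pool.Agent.H17.FK

open FirstOrder FirstOrder.Language Pool.Agent.H74.Stub Set
open Pool.Agent.H17.DG (Dig digStr ArcRel K3 exists_colouring PAr par_asymm par_triangle par_colour
  pp_atom pp_const pp_list pat al be al_ne_be al_be_surj Cst cst_pat)

section

variable {L : FirstOrder.Language.{0, 0}} {A : Type} [L.Structure A] {k m : ℕ} {G : Type}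
  {C : CG k A G}

/-- an edge of the pp-power of the template -/
def Edg (C : CG k A G) (lQ : List (Atom L (Fin (k + 1) → Fin m))) {n l : ℕ}
    (ρ : (Fin 2 × Fin n) ⊕ Fin l → Fin 6 → G) (t t' : (Fin (k + 1) → Fin n) → A) : Prop :=
  ∃ s : (Fin (k + 1) → (Fin 2 × Fin n) ⊕ Fin l) → A,
    (∀ τ, s (fun i => Sum.inl (0, τ i)) = t τ) ∧ (∀ τ, s (fun i => Sum.inl (1, τ i)) = t' τ) ∧
    (∀ σ σ', (∀ i, ρ (σ i) = ρ (σ' i)) → s σ = s σ') ∧
    (∀ x : Fin m → (Fin 2 × Fin n) ⊕ Fin l, (∀ i j, i ≠ j → RA C (ρ (x i)) (ρ (x j))) →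
      ∀ a ∈ lQ, a.Holds (fun p => s (fun i => x (p i))))

theorem pp_edg (lQ : List (Atom L (Fin (k + 1) → Fin m))) {n l : ℕ}
    (ρ : (Fin 2 × Fin n) ⊕ Fin l → Fin 6 → G) :
    PPDefinable L {w : Fin 2 × (Fin (k + 1) → Fin n) → A |
      Edg C lQ ρ (fun τ => w (0, τ)) (fun τ => w (1, τ))} := by
  let S := Fin (k + 1) → (Fin 2 × Fin n) ⊕ Fin l
  let I := (Fin 2 × (Fin (k + 1) → Fin n)) ⊕ S
  have h1 : PPDefinable L (⋂ τ : Fin (k + 1) → Fin n, {w : I → A |
      w (Sum.inr (fun i => Sum.inl (0, τ i))) = w (Sum.inl (0, τ))}) :=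
    pp_iInter fun τ => pp_eq _ _
  have h2 : PPDefinable L (⋂ τ : Fin (k + 1) → Fin n, {w : I → A |
      w (Sum.inr (fun i => Sum.inl (1, τ i))) = w (Sum.inl (1, τ))}) :=
    pp_iInter fun τ => pp_eq _ _
  have h3 : PPDefinable L (⋂ σ : S × S, {w : I → A | (∀ i, ρ (σ.1 i) = ρ (σ.2 i)) →
      w ∈ {w : I → A | w (Sum.inr σ.1) = w (Sum.inr σ.2)}}) :=
    pp_iInter fun σ => pp_const (pp_eq _ _)
  have h4 : PPDefinable L (⋂ x : Fin m → (Fin 2 × Fin n) ⊕ Fin l, {w : I → A |
      (∀ i j, i ≠ j → RA C (ρ (x i)) (ρ (x j))) → w ∈ {w : I → A | ∀ a ∈ lQ,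
        a.Holds (fun p : Fin (k + 1) → Fin m => w (Sum.inr (fun i => x (p i))))}}) :=
    pp_iInter fun x => pp_const (pp_list
      (fun p : Fin (k + 1) → Fin m => (Sum.inr (fun i => x (p i)) : I)) lQ)
  have h5 := pp_exists (pp_inter h1 (pp_inter h2 (pp_inter h3 h4)))
  convert h5 using 1
  ext w
  simp only [mem_ofPred_eq, mem_inter_iff, mem_iInter, Sum.elim_inr, Sum.elim_inl, Prod.forall]
  exact Iff.rfl

/-- The main step. -/
theorem k3_of_generic (lQ : List (Atom L (Fin (k + 1) → Fin m))) [Nonempty A] [Countable G]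
    [Countable A] (hC : IsGen C (fun c => ∀ a ∈ lQ, a.Holds c)) (hm : 2 ≤ m)
    (h : @PPConstructs Dig G (digStr C.arc) Dig (Fin 3) K3) :
    @PPConstructs L A _ Dig (Fin 3) K3 := by
  classical
  let _ : Dig.Structure (Fin 3) := K3
  obtain ⟨n, P, hn, hpp, ⟨f⟩, ⟨g⟩⟩ := h
  obtain ⟨lv, fm, hfm⟩ := hpp 2 ArcRel.arc
  -- the six columns
  let W : Fin 6 → Fin 2 × Fin n → G := fun c q => g (pat q.1 c) q.2
  have hcol : ∀ c, ∃ y : Fin lv → G, ∀ a ∈ fm,
      @Atom.Holds Dig _ G (digStr C.arc) (Sum.elim (W c) y) a := by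
    intro c
    rw [← hfm]
    have h1 : K3.RelMap ArcRel.arc ![al c, be c] := al_ne_be c
    have h2 := g.map_rel' ArcRel.arc _ h1
    show P.RelMap ArcRel.arc _
    convert h2 using 1
    funext i j
    match i with
    | 0 => rfl
    | 1 => rfl
  choose y hy using hcol
  let ρ : (Fin 2 × Fin n) ⊕ Fin lv → Fin 6 → G := fun v c => Sum.elim (W c) (y c) v
  let π : Fin n → Fin 3 → G := fun i a => g a i
  have hρ : ∀ a i, ρ (Sum.inl (a, i)) = fun c => π i (pat a c) := fun a i => rfl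
  let J := Fin (k + 1) → Fin n
  by_cases hcolour : ∃ g' : (J → A) → Fin 3, ∀ t t', Edg C lQ ρ t t' → g' t ≠ g' t'
  · obtain ⟨g', hg'⟩ := hcolour
    have hJ : Nonempty J := ⟨fun _ => ⟨0, hn⟩⟩
    let N := Fintype.card J
    let e : J ≃ Fin N := Fintype.equivFin J
    let S : Dig.Structure (Fin N → A) := digStr (fun w w' =>
      Edg C lQ ρ (fun τ => w (e τ)) (fun τ => w' (e τ)))
    refine ⟨N, S, Fintype.card_pos, ?_, ?_, ?_⟩
    · intro r R
      cases R with
      | arc =>
        have h1 := pp_comap (J := Fin 2 × Fin N) (fun q : Fin 2 × J => (q.1, e q.2))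
          (pp_edg (C := C) lQ ρ)
        exact h1
    · refine ⟨{ toFun := fun w => g' (fun τ => w (e τ))
                map_fun' := fun f => isEmptyElim f
                map_rel' := ?_ }⟩
      intro r R w hw
      cases R with
      | arc => exact hg' _ _ hw
    · refine ⟨{ toFun := fun a i => C.col (fun j => g a (e.symm i j))
                map_fun' := fun f => isEmptyElim f
                map_rel' := ?_ }⟩
      intro r R x hx
      cases R with
      | arc =>
        have hne : x 0 ≠ x 1 := hx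
        obtain ⟨c, h0, h1⟩ := al_be_surj _ _ hne
        refine ⟨fun σ => C.col (fun j => ρ (σ j) c), ?_, ?_, ?_, ?_⟩
        · intro τ
          show C.col (fun j => g (al c) (τ j)) = C.col (fun j => g (x 0) (e.symm (e τ) j))
          rw [Equiv.symm_apply_apply, h0]
        · intro τ
          show C.col (fun j => g (be c) (τ j)) = C.col (fun j => g (x 1) (e.symm (e τ) j))
          rw [Equiv.symm_apply_apply, h1]
        · intro σ σ' hσ
          show C.col (fun j => ρ (σ j) c) = C.col (fun j => ρ (σ' j) c)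
          congr 1
          funext j
          rw [hσ j]
        · intro z hz
          exact hC.good (fun i => ρ (z i) c) (fun i j hij => hz i j hij c)
  · exfalso
    -- the class of the constants
    let T := {τ : J // ∀ i, Cst (π (τ i))}
    let κ : (J → A) → (T → A) := fun t τ => t τ.1
    have hκ : ∀ t t', Edg C lQ ρ t t' → κ t = κ t' := by
      rintro t t' ⟨s, h1, h2, h3, -⟩
      funext τ
      show t τ.1 = t' τ.1
      rw [← h1, ← h2]
      apply h3
      intro i
      rw [hρ, hρ]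
      exact cst_pat (τ.2 i) _ _
    have h1 : ∃ κ0 : T → A, ¬ ∃ g' : (J → A) → Fin 3, ∀ t t',
        (Edg C lQ ρ t t' ∧ κ t = κ0) → g' t ≠ g' t' := by
      by_contra hcon
      push Not at hcon
      choose gg hgg using hcon
      apply hcolour
      refine ⟨fun t => gg (κ t) t, fun t t' htt => ?_⟩
      show gg (κ t) t ≠ gg (κ t') t'
      rw [← hκ t t' htt]
      exact hgg (κ t) t t' ⟨htt, rfl⟩
    obtain ⟨κ0, h1⟩ := h1
    have h2 : ∃ F : Finset (J → A), ¬ ∃ g' : (J → A) → Fin 3, ∀ t ∈ F, ∀ t' ∈ F,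
        (Edg C lQ ρ t t' ∧ κ t = κ0) → g' t ≠ g' t' := by
      by_contra hcon
      push Not at hcon
      exact h1 (exists_colouring _ hcon)
    obtain ⟨F, hF⟩ := h2
    let E : {t // t ∈ F} → {t // t ∈ F} → Prop := fun t t' => Edg C lQ ρ t.1 t'.1 ∧ κ t.1 = κ0
    have hE : ¬ ∃ g' : {t // t ∈ F} → Fin 3, ∀ t t', E t t' → g' t ≠ g' t' := by
      rintro ⟨g', hg'⟩
      apply hF
      refine ⟨fun t => if h : t ∈ F then g' ⟨t, h⟩ else 0, fun t ht t' ht' htt => ?_⟩
      show (if h : t ∈ F then g' ⟨t, h⟩ else 0) ≠ (if h : t' ∈ F then g' ⟨t', h⟩ else 0)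
      rw [dif_pos ht, dif_pos ht']
      exact hg' ⟨t, ht⟩ ⟨t', ht'⟩ htt
    have hs : ∀ e : Fin 2 → {t // t ∈ F} × ℕ × ℕ, ∃ s : (Fin (k + 1) →
        (Fin 2 × Fin n) ⊕ Fin lv) → A, PAr E (e 0) (e 1) →
        (∀ τ, s (fun i => Sum.inl (0, τ i)) = (e 0).1.1 τ) ∧
        (∀ τ, s (fun i => Sum.inl (1, τ i)) = (e 1).1.1 τ) ∧
        (∀ σ σ', (∀ i, ρ (σ i) = ρ (σ' i)) → s σ = s σ') ∧
        (∀ x : Fin m → (Fin 2 × Fin n) ⊕ Fin lv, (∀ i j, i ≠ j → RA C (ρ (x i)) (ρ (x j))) →
          ∀ a ∈ lQ, a.Holds (fun p => s (fun i => x (p i)))) := by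
      intro e
      by_cases he : PAr E (e 0) (e 1)
      · obtain ⟨s, hs⟩ := he.1.1
        exact ⟨s, fun _ => hs⟩
      · exact ⟨fun _ => Classical.arbitrary A, fun h => absurd h he⟩
    choose s hs using hs
    obtain ⟨Φ, hΦ⟩ := hC.glue (ρ := ρ) (π := π) hm hρ (par_asymm E) (par_triangle E)
      (fun v => v.1.1) s
      (by
        intro e he a τ
        match a with
        | 0 => exact (hs e he).1 τ
        | 1 => exact (hs e he).2.1 τ)
      (fun e he => (hs e he).2.2.1) (fun e he => (hs e he).2.2.2)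
      (by
        intro e e' he he' τ hτ
        have h3 : κ (e 0).1.1 = κ0 := he.1.2
        have h4 : κ (e' 0).1.1 = κ0 := he'.1.2
        exact congrFun (h3.trans h4.symm) ⟨τ, hτ⟩)
    apply hE
    apply par_colour E (fun v => f (Φ v))
    intro v w hvw
    obtain ⟨H, hH1, hH2, hH3⟩ := hΦ ![v, w] hvw
    have h3 : P.RelMap ArcRel.arc ![Φ v, Φ w] := by
      have h4 : (fun q : Fin 2 × Fin n => (![Φ v, Φ w] : Fin 2 → Fin n → G) q.1 q.2) ∈
          {w : Fin 2 × Fin n → G | P.RelMap ArcRel.arc fun i j => w (i, j)} := by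
        rw [hfm]
        refine ⟨fun j => H (Sum.inr j), fun a ha => ?_⟩
        have e1 : Sum.elim (fun q : Fin 2 × Fin n => (![Φ v, Φ w] : Fin 2 → Fin n → G) q.1 q.2)
            (fun j => H (Sum.inr j)) = H := by
          funext q
          rcases q with ⟨a, i⟩ | j
          · have h5 := hH1 a i
            show (![Φ v, Φ w] : Fin 2 → Fin n → G) a i = _
            rw [h5]
            match a with
            | 0 => rfl
            | 1 => rfl
          · rfl
        rw [e1]
        have h6 := fun c => hy c a ha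
        cases a with
        | bot => exact h6 0
        | eq u v => exact hH2 u v (funext fun c => h6 c)
        | rel R t =>
          cases R with
          | arc => exact hH3 (t 0) (t 1) (fun c => h6 c)
      exact h4
    have h5 := f.map_rel' ArcRel.arc _ h3
    exact h5

end

end Pool.Agent.H17.FK
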