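import Mathlib
import Pool.Agent.H17.FK.Csp
import Pool.Agent.H74.Stub.PP

set_option autoImplicit false

/-!
# The link functor

`H` is an undirected graph without loops. In the generic graph every ordered clique `q` with `k`
vertices carries a homomorphism from its common neighbourhood to `H`.
-/

namespace Pool.Agent.H17.FK

open FirstOrder FirstOrder.Language Pool.Agent.H74.Stub Set
open Pool.Agent.H17.DG (IsHomo Dig digStr ArcRel)

/-- the positions different from the last but one -/
def p1 (k : ℕ) : Fin (k + 1) → Fin (k + 2) := (Fin.last k).castSucc.succAbove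

theorem p1_castSucc {k : ℕ} (i : Fin k) : p1 k i.castSucc = i.castSucc.castSucc := by
  unfold p1
  rw [Fin.succAbove_of_castSucc_lt]
  rw [Fin.lt_def]
  simp only [Fin.val_castSucc, Fin.val_last]
  exact i.2

theorem p1_last {k : ℕ} : p1 k (Fin.last k) = Fin.last (k + 1) := by
  unfold p1
  rw [Fin.succAbove_of_le_castSucc]
  · exact Fin.succ_last k
  · exact le_rfl

theorem p1_injective {k : ℕ} : Function.Injective (p1 k) := Fin.succAbove_right_injective

/-- the condition on the cliques with `k + 2` vertices -/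
def QK (k : ℕ) {H : Type} (E : H → H → Prop) (c : (Fin (k + 1) → Fin (k + 2)) → H) : Prop :=
  E (c Fin.castSucc) (c (p1 k))

theorem QK_loc (k : ℕ) {H : Type} (E : H → H → Prop) : Loc (QK k E) := by
  intro c c' h hc
  unfold QK
  rw [← h _ (Fin.castSucc_injective _), ← h _ p1_injective]
  exact hc

/-- the tuple `q, y, z` -/
def tri {k : ℕ} {X : Type} (q : Fin k → X) (y z : X) : Fin (k + 2) → X :=
  Fin.snoc (Fin.snoc q y : Fin (k + 1) → X) z

theorem tri_castSucc {k : ℕ} {X : Type} (q : Fin k → X) (y z : X) :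
    (fun i => tri q y z (Fin.castSucc i)) = (Fin.snoc q y : Fin (k + 1) → X) := by
  funext i
  unfold tri
  rw [Fin.snoc_castSucc]

theorem tri_p1 {k : ℕ} {X : Type} (q : Fin k → X) (y z : X) :
    (fun i => tri q y z (p1 k i)) = (Fin.snoc q z : Fin (k + 1) → X) := by
  funext i
  refine Fin.lastCases ?_ (fun j => ?_) i
  · rw [p1_last]
    unfold tri
    rw [Fin.snoc_last, Fin.snoc_last]
  · rw [p1_castSucc]
    unfold tri
    rw [Fin.snoc_castSucc, Fin.snoc_castSucc, Fin.snoc_castSucc]

/-- every tuple has this form -/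
theorem eq_tri {k : ℕ} {X : Type} (x : Fin (k + 2) → X) :
    x = tri (fun i => x i.castSucc.castSucc) (x (Fin.last k).castSucc) (x (Fin.last (k + 1))) := by
  funext i
  refine Fin.lastCases ?_ (fun j => ?_) i
  · unfold tri
    rw [Fin.snoc_last]
  · unfold tri
    rw [Fin.snoc_castSucc]
    refine Fin.lastCases ?_ (fun j' => ?_) j
    · rw [Fin.snoc_last]
    · rw [Fin.snoc_castSucc]

section

variable {X : Type} {ar : X → X → Prop}

theorem tr_snoc (hs : ∀ x y, ar x y → ar y x) {k : ℕ} (q : Fin k → X) (y : X) :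
    Tr ar (Fin.snoc q y : Fin (k + 1) → X) ↔ Tr ar q ∧ ∀ i, ar (q i) y := by
  constructor
  · intro h
    constructor
    · intro i j hij
      have := h i.castSucc j.castSucc (fun h => hij (Fin.castSucc_injective _ h))
      rwa [Fin.snoc_castSucc, Fin.snoc_castSucc] at this
    · intro i
      have := h i.castSucc (Fin.last k) (Fin.castSucc_lt_last i).ne
      rwa [Fin.snoc_castSucc, Fin.snoc_last] at this
  · rintro ⟨h1, h2⟩ i j
    refine Fin.lastCases ?_ (fun i' => ?_) i <;> refine Fin.lastCases ?_ (fun j' => ?_) j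
    · intro h
      exact absurd rfl h
    · intro _
      rw [Fin.snoc_castSucc, Fin.snoc_last]
      exact hs _ _ (h2 j')
    · intro _
      rw [Fin.snoc_castSucc, Fin.snoc_last]
      exact h2 i'
    · intro h
      rw [Fin.snoc_castSucc, Fin.snoc_castSucc]
      exact h1 _ _ (fun h' => h (congrArg _ h'))

/-- `y` and `z` are adjacent common neighbours of the clique `q` -/
def Lk (ar : X → X → Prop) {k : ℕ} (q : Fin k → X) (y z : X) : Prop :=
  Tr ar q ∧ (∀ i, ar (q i) y) ∧ (∀ i, ar (q i) z) ∧ ar y z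

theorem tr_tri (hs : ∀ x y, ar x y → ar y x) {k : ℕ} (q : Fin k → X) (y z : X) :
    Tr ar (tri q y z) ↔ Lk ar q y z := by
  unfold tri Lk
  rw [tr_snoc hs, tr_snoc hs]
  constructor
  · rintro ⟨⟨h1, h2⟩, h3⟩
    refine ⟨h1, h2, fun i => ?_, ?_⟩
    · have := h3 i.castSucc
      rwa [Fin.snoc_castSucc] at this
    · have := h3 (Fin.last k)
      rwa [Fin.snoc_last] at this
  · rintro ⟨h1, h2, h3, h4⟩
    refine ⟨⟨h1, h2⟩, fun i => ?_⟩
    refine Fin.lastCases ?_ (fun i' => ?_) i
    · rw [Fin.snoc_last]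
      exact h4
    · rw [Fin.snoc_castSucc]
      exact h3 i'

end

/-- There are at least as many entries from `D` as missing vertices. -/
theorem exists_tau {k : ℕ} {D : Type} (q : Fin k → Fin k ⊕ D) (hq : Function.Injective q) :
    ∃ τ : {a : Fin k // ∀ i, q i ≠ Sum.inl a} → {i : Fin k // ∃ u, q i = Sum.inr u},
      Function.Injective τ := by
  classical
  have h1 : Fintype.card {i : Fin k // ¬ ∃ u, q i = Sum.inr u} ≤
      Fintype.card {a : Fin k // ¬ ∀ i, q i ≠ Sum.inl a} := by
    have hl : ∀ i : {i : Fin k // ¬ ∃ u, q i = Sum.inr u}, ∃ a, q i = Sum.inl a := by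
      intro i
      rcases h : q i with a | u
      · exact ⟨a, rfl⟩
      · exact absurd ⟨u, h⟩ i.2
    choose f hf using hl
    refine Fintype.card_le_of_injective (fun i => ⟨f i, fun h => h i (hf i)⟩) ?_
    intro i j hij
    have h2 : f i = f j := congrArg Subtype.val hij
    apply Subtype.ext
    apply hq
    rw [hf, hf, h2]
  have h2 := Fintype.card_subtype_compl (fun a : Fin k => ∀ i, q i ≠ Sum.inl a)
  have h3 := Fintype.card_subtype_compl (fun i : Fin k => ∃ u, q i = Sum.inr u)
  have h4 := Fintype.card_subtype_le (fun a : Fin k => ∀ i, q i ≠ Sum.inl a)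
  have h5 := Fintype.card_subtype_le (fun i : Fin k => ∃ u, q i = Sum.inr u)
  have hcard : Fintype.card {a : Fin k // ∀ i, q i ≠ Sum.inl a} ≤
      Fintype.card {i : Fin k // ∃ u, q i = Sum.inr u} := by
    omega
  obtain ⟨e⟩ := Function.Embedding.nonempty_of_card_le hcard
  exact ⟨e, e.injective⟩

/-- the join of a clique with `k` vertices and a graph -/
def Jn (k : ℕ) {D : Type} (F : D → D → Prop) : Fin k ⊕ D → Fin k ⊕ D → Prop
  | Sum.inl i, Sum.inl j => i ≠ j
  | Sum.inl _, Sum.inr _ => True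
  | Sum.inr _, Sum.inl _ => True
  | Sum.inr u, Sum.inr v => F u v

/-- the join has a good colouring -/
theorem exists_colour (k : ℕ) {D H : Type} [Nonempty H] {F : D → D → Prop} {E : H → H → Prop}
    (hE : ∀ a b, E a b → E b a) (hFs : ∀ u v, F u v → F v u) (hFi : ∀ u, ¬ F u u) (f : D → H)
    (hf : ∀ u v, F u v → E (f u) (f v)) :
    ∃ Y : CG k H (Fin k ⊕ D), Y.arc = Jn k F ∧ Y.Good (QK k E) ∧
      ∀ u, Y.col (Fin.snoc (fun i => Sum.inl i) (Sum.inr u)) = f u := by
  classical
  have hJs : ∀ x y, Jn k F x y → Jn k F y x := by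
    rintro (i | u) (j | v) h
    · exact fun h' => h h'.symm
    · trivial
    · trivial
    · exact hFs _ _ h
  have hJi : ∀ x, ¬ Jn k F x x := by
    rintro (i | u) h
    · exact h rfl
    · exact hFi _ h
  choose τ hτ using fun (q : Fin k → Fin k ⊕ D) (hq : Function.Injective q) => exists_tau q hq
  -- the value at a vertex of the join
  let val : (Fin k → Fin k ⊕ D) → Fin k ⊕ D → H := fun q x =>
    match x with
    | Sum.inr u => f u
    | Sum.inl a => if h : Function.Injective q ∧ ∀ i, q i ≠ Sum.inl a then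
        f (τ q h.1 ⟨a, h.2⟩).2.choose else Classical.arbitrary H
  let Y : CG k H (Fin k ⊕ D) :=
    { arc := Jn k F
      symm := hJs
      irrefl := hJi
      col := fun t => val (fun i => t i.castSucc) (t (Fin.last k)) }
  have hval : ∀ (q : Fin k → Fin k ⊕ D) (hq : Function.Injective q) (a : Fin k)
      (ha : ∀ i, q i ≠ Sum.inl a), ∃ u, q (τ q hq ⟨a, ha⟩).1 = Sum.inr u ∧
        val q (Sum.inl a) = f u := by
    intro q hq a ha
    refine ⟨(τ q hq ⟨a, ha⟩).2.choose, (τ q hq ⟨a, ha⟩).2.choose_spec, ?_⟩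
    exact dif_pos (⟨hq, ha⟩ : Function.Injective q ∧ ∀ i, q i ≠ Sum.inl a)
  refine ⟨Y, rfl, ?_, ?_⟩
  · intro x hx
    rw [eq_tri x] at hx ⊢
    set q : Fin k → Fin k ⊕ D := fun i => x i.castSucc.castSucc with hq
    set y := x (Fin.last k).castSucc with hy
    set z := x (Fin.last (k + 1)) with hz
    obtain ⟨h1, h2, h3, h4⟩ := (tr_tri hJs q y z).1 hx
    have hqi : Function.Injective q := by
      intro i j hij
      by_contra h
      have := h1 i j h
      rw [hij] at this
      exact hJi _ this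
    have c1 : Y.col (fun i => tri q y z (Fin.castSucc i)) = val q y := by
      rw [tri_castSucc]
      show val (fun i => (Fin.snoc q y : Fin (k + 1) → Fin k ⊕ D) i.castSucc)
        ((Fin.snoc q y : Fin (k + 1) → Fin k ⊕ D) (Fin.last k)) = _
      simp only [Fin.snoc_castSucc, Fin.snoc_last]
    have c2 : Y.col (fun i => tri q y z (p1 k i)) = val q z := by
      rw [tri_p1]
      show val (fun i => (Fin.snoc q z : Fin (k + 1) → Fin k ⊕ D) i.castSucc)
        ((Fin.snoc q z : Fin (k + 1) → Fin k ⊕ D) (Fin.last k)) = _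
      simp only [Fin.snoc_castSucc, Fin.snoc_last]
    show E (Y.col (fun i => tri q y z (Fin.castSucc i))) (Y.col (fun i => tri q y z (p1 k i)))
    rw [c1, c2]
    have hmiss : ∀ a, (∀ i, Jn k F (q i) (Sum.inl a)) → ∀ i, q i ≠ Sum.inl a := by
      intro a h i hi
      have := h i
      rw [hi] at this
      exact hJi _ this
    generalize y = y at h2 h4 ⊢
    generalize z = z at h3 h4 ⊢
    rcases y with a | u <;> rcases z with b | v
    · obtain ⟨u, hu, hu'⟩ := hval q hqi a (hmiss a h2)
      obtain ⟨v, hv, hv'⟩ := hval q hqi b (hmiss b h3)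
      rw [hu', hv']
      apply hf
      have hab : a ≠ b := h4
      have hne : (τ q hqi ⟨a, hmiss a h2⟩).1 ≠ (τ q hqi ⟨b, hmiss b h3⟩).1 := by
        intro h
        exact hab (congrArg Subtype.val (hτ q hqi (Subtype.ext h)))
      have := h1 _ _ hne
      rw [hu, hv] at this
      exact this
    · obtain ⟨u, hu, hu'⟩ := hval q hqi a (hmiss a h2)
      rw [hu']
      have := h3 (τ q hqi ⟨a, hmiss a h2⟩).1
      rw [hu] at this
      exact hf _ _ this
    · obtain ⟨v, hv, hv'⟩ := hval q hqi b (hmiss b h3)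
      rw [hv']
      have := h2 (τ q hqi ⟨b, hmiss b h3⟩).1
      rw [hv] at this
      exact hE _ _ (hf _ _ this)
    · exact hf _ _ h4
  · intro u
    show val (fun i => (Fin.snoc (fun i => Sum.inl i) (Sum.inr u) : Fin (k + 1) → Fin k ⊕ D)
      i.castSucc) ((Fin.snoc (fun i => Sum.inl i) (Sum.inr u) : Fin (k + 1) → Fin k ⊕ D)
        (Fin.last k)) = f u
    rw [Fin.snoc_last]

section

variable {k : ℕ} {H G : Type} {E : H → H → Prop} {C : CG k H G}

/-- the colours of the neighbours of a clique form a homomorphism -/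
theorem link_hom (hC : C.Good (QK k E)) {q : Fin k → G} {y z : G} (h : Lk C.arc q y z) :
    E (C.col (Fin.snoc q y)) (C.col (Fin.snoc q z)) := by
  have h1 := hC (tri q y z) ((tr_tri C.symm q y z).2 h)
  have h2 : E (C.col (fun i => tri q y z (Fin.castSucc i))) (C.col (fun i => tri q y z (p1 k i))) :=
    h1
  rwa [tri_castSucc, tri_p1] at h2

/-- Every homomorphism to `H` gives a homomorphism of the join to the generic graph. -/
theorem join_hom [Nonempty H] (hC : IsGen C (QK k E)) (hE : ∀ a b, E a b → E b a)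
    (hEi : ∀ a, ¬ E a a) {D : Type} [Countable D] (F : D → D → Prop) (f : D → H)
    (hf : ∀ u v, F u v → E (f u) (f v)) :
    ∃ h : Fin k ⊕ D → G, (∀ x y, Jn k F x y → C.arc (h x) (h y)) ∧
      ∀ u, C.col (Fin.snoc (fun i => h (Sum.inl i)) (h (Sum.inr u))) = f u := by
  obtain ⟨Y, h1, h2, h3⟩ := exists_colour k (F := fun u v => F u v ∨ F v u) hE
    (fun u v h => h.symm) (fun u h => h.elim (fun h => hEi _ (hf _ _ h))
      (fun h => hEi _ (hf _ _ h))) f (fun u v h => h.elim (hf _ _) fun h => hE _ _ (hf _ _ h))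
  obtain ⟨e, he⟩ := hC.embed' Y h2
  refine ⟨e, ?_, ?_⟩
  · intro x y hxy
    refine (he.arc x y).1 ?_
    rw [h1]
    show Jn k (fun u v => F u v ∨ F v u) x y
    rcases x with i | u <;> rcases y with j | v
    · exact hxy
    · trivial
    · trivial
    · exact Or.inl hxy
  · intro u
    have h4 : Tr Y.arc (fun i => (Fin.snoc (fun i => Sum.inl i) (Sum.inr u) :
        Fin (k + 1) → Fin k ⊕ D) i) := by
      show Tr Y.arc (Fin.snoc (fun i => Sum.inl i) (Sum.inr u) : Fin (k + 1) → Fin k ⊕ D)
      rw [tr_snoc Y.symm, h1]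
      exact ⟨fun i j hij => hij, fun i => trivial⟩
    have h5 := he.col (Fin.snoc (fun i => Sum.inl i) (Sum.inr u) : Fin (k + 1) → Fin k ⊕ D) h4
    have h6 : (fun i => e ((Fin.snoc (fun i => Sum.inl i) (Sum.inr u) :
        Fin (k + 1) → Fin k ⊕ D) i)) = Fin.snoc (fun i => e (Sum.inl i)) (e (Sum.inr u)) := by
      funext i
      refine Fin.lastCases ?_ (fun j => ?_) i
      · rw [Fin.snoc_last, Fin.snoc_last]
      · rw [Fin.snoc_castSucc, Fin.snoc_castSucc]
    rw [h6] at h5
    exact h5.trans (h3 u)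

/-- The first reduction: joins. -/
theorem join_iff [Nonempty H] (hC : IsGen C (QK k E)) (hE : ∀ a b, E a b → E b a)
    (hEi : ∀ a, ¬ E a a) {D : Type} [Countable D] (F : D → D → Prop) :
    (∃ f : D → H, IsHomo F E f) ↔ ∃ h : Fin k ⊕ D → G, IsHomo (Jn k F) C.arc h := by
  constructor
  · rintro ⟨f, hf⟩
    obtain ⟨h, h1, -⟩ := join_hom hC hE hEi F f hf
    exact ⟨h, h1⟩
  · rintro ⟨h, hh⟩
    refine ⟨fun u => C.col (Fin.snoc (fun i => h (Sum.inl i)) (h (Sum.inr u))), fun u v huv => ?_⟩
    exact link_hom hC.good ⟨fun i j hij => hh _ _ hij, fun i => hh (Sum.inl i) (Sum.inr u) trivial,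
      fun i => hh (Sum.inl i) (Sum.inr v) trivial, hh (Sum.inr u) (Sum.inr v) huv⟩

/-- The second reduction: links. -/
theorem link_iff (hC : IsGen C (QK k E)) {X : Type} [Countable X] [Nonempty H]
    (F : X → X → Prop) :
    (∃ h : X → G, IsHomo F C.arc h) ↔ (∀ x, ¬ F x x) ∧
      ∀ q : Fin k → X, ∃ g : X → H, ∀ y z, Lk (fun x y => F x y ∨ F y x) q y z → E (g y) (g z) := by
  classical
  have hs : ∀ x y, (F x y ∨ F y x) → (F y x ∨ F x y) := fun x y h => h.symm
  rw [hC.csp_iff F]
  refine and_congr_right fun _ => ?_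
  constructor
  · rintro ⟨c, hc⟩ q
    refine ⟨fun y => c (Fin.snoc q y), fun y z h => ?_⟩
    have h1 := hc (tri q y z) ((tr_tri hs q y z).2 h)
    have h2 : E (c (fun i => tri q y z (Fin.castSucc i))) (c (fun i => tri q y z (p1 k i))) := h1
    rwa [tri_castSucc, tri_p1] at h2
  · intro h
    choose g hg using h
    refine ⟨fun t => g (fun i => t i.castSucc) (t (Fin.last k)), fun x hx => ?_⟩
    rw [eq_tri x] at hx ⊢
    have h1 := (tr_tri hs _ _ _).1 hx
    set q : Fin k → X := fun i => x i.castSucc.castSucc with hq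
    set y := x (Fin.last k).castSucc with hy
    set z := x (Fin.last (k + 1)) with hz
    have h2 := hg q y z h1
    show E (g (fun i => (fun i => tri q y z (Fin.castSucc i)) i.castSucc)
        ((fun i => tri q y z (Fin.castSucc i)) (Fin.last k)))
      (g (fun i => (fun i => tri q y z (p1 k i)) i.castSucc)
        ((fun i => tri q y z (p1 k i)) (Fin.last k)))
    rw [tri_castSucc, tri_p1]
    simp only [Fin.snoc_castSucc, Fin.snoc_last]
    exact h2

/-- The generic graph pp-constructs `H`. -/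
theorem ppConstructs_link [Nonempty H] [Countable H] (hC : IsGen C (QK k E))
    (hE : ∀ a b, E a b → E b a) (hEi : ∀ a, ¬ E a a) :
    @PPConstructs Dig G (digStr C.arc) Dig H (digStr E) := by
  classical
  let _ : Dig.Structure G := digStr C.arc
  let _ : Dig.Structure H := digStr E
  obtain ⟨h, h1, h2⟩ := join_hom hC hE hEi E id (fun u v h => h)
  let P : Dig.Structure (Fin (k + 1) → G) :=
    digStr (fun w w' : Fin (k + 1) → G => (∀ i : Fin k, w i.castSucc = w' i.castSucc) ∧
      Tr C.arc (Fin.snoc w (w' (Fin.last k)) : Fin (k + 2) → G))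
  refine ⟨k + 1, P, by omega, ?_, ?_, ?_⟩
  · intro r R
    cases R with
    | arc =>
      have e1 : PPDefinable Dig (⋂ i : Fin k, {w : Fin 2 × Fin (k + 1) → G |
          w (0, i.castSucc) = w (1, i.castSucc)}) :=
        pp_iInter fun i => pp_eq _ _
      have e2 : PPDefinable Dig (⋂ p : {p : Fin (k + 2) × Fin (k + 2) // p.1 ≠ p.2},
          {w : Fin 2 × Fin (k + 1) → G | C.arc
            (w ((Fin.snoc (fun i => (0, i)) (1, Fin.last k) : Fin (k + 2) → Fin 2 × Fin (k + 1))
              p.1.1))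
            (w ((Fin.snoc (fun i => (0, i)) (1, Fin.last k) : Fin (k + 2) → Fin 2 × Fin (k + 1))
              p.1.2))}) :=
        pp_iInter fun p => pp_rel (L := Dig) (n := 2) ArcRel.arc
          ![(Fin.snoc (fun i => (0, i)) (1, Fin.last k) : Fin (k + 2) → Fin 2 × Fin (k + 1)) p.1.1,
            (Fin.snoc (fun i => (0, i)) (1, Fin.last k) : Fin (k + 2) → Fin 2 × Fin (k + 1)) p.1.2]
      have e3 := pp_inter e1 e2
      have e4 : ∀ (w : Fin 2 × Fin (k + 1) → G) (i : Fin (k + 2)),
          w ((Fin.snoc (fun i => (0, i)) (1, Fin.last k) : Fin (k + 2) → Fin 2 × Fin (k + 1)) i) =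
          (Fin.snoc (fun i => w (0, i)) (w (1, Fin.last k)) : Fin (k + 2) → G) i := by
        intro w i
        refine Fin.lastCases ?_ (fun j => ?_) i
        · rw [Fin.snoc_last, Fin.snoc_last]
        · rw [Fin.snoc_castSucc, Fin.snoc_castSucc]
      have e5 : {w : Fin 2 × Fin (k + 1) → G | (∀ i : Fin k, w (0, i.castSucc) = w (1, i.castSucc)) ∧
          Tr C.arc (Fin.snoc (fun i => w (0, i)) (w (1, Fin.last k)) : Fin (k + 2) → G)} =
          (⋂ i : Fin k, {w : Fin 2 × Fin (k + 1) → G |
          w (0, i.castSucc) = w (1, i.castSucc)}) ∩ (⋂ p : {p : Fin (k + 2) × Fin (k + 2) //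
          p.1 ≠ p.2}, {w : Fin 2 × Fin (k + 1) → G | C.arc
            (w ((Fin.snoc (fun i => (0, i)) (1, Fin.last k) : Fin (k + 2) → Fin 2 × Fin (k + 1))
              p.1.1))
            (w ((Fin.snoc (fun i => (0, i)) (1, Fin.last k) : Fin (k + 2) → Fin 2 × Fin (k + 1))
              p.1.2))}) := by
        ext w
        simp only [mem_ofPred_eq, mem_inter_iff, mem_iInter, e4]
        refine and_congr_right fun _ => ?_
        exact ⟨fun h p => h p.1.1 p.1.2 p.2, fun h i j hij => h ⟨(i, j), hij⟩⟩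
      show PPDefinable Dig {w : Fin 2 × Fin (k + 1) → G |
        (∀ i : Fin k, w (0, i.castSucc) = w (1, i.castSucc)) ∧
          Tr C.arc (Fin.snoc (fun i => w (0, i)) (w (1, Fin.last k)) : Fin (k + 2) → G)}
      rw [e5]
      exact e3
  · refine ⟨{ toFun := C.col
              map_fun' := fun f => isEmptyElim f
              map_rel' := ?_ }⟩
    intro r R w hw
    cases R with
    | arc =>
      obtain ⟨h3, h4⟩ := hw
      show E (C.col (w 0)) (C.col (w 1))
      have h5 := hC.good _ h4
      have h6 : E (C.col (fun i => (Fin.snoc (w 0) (w 1 (Fin.last k)) : Fin (k + 2) → G)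
          (Fin.castSucc i)))
          (C.col (fun i => (Fin.snoc (w 0) (w 1 (Fin.last k)) : Fin (k + 2) → G) (p1 k i))) := h5
      have e1 : (fun i => (Fin.snoc (w 0) (w 1 (Fin.last k)) : Fin (k + 2) → G)
          (Fin.castSucc i)) = w 0 := by
        funext i
        rw [Fin.snoc_castSucc]
      have e2 : (fun i => (Fin.snoc (w 0) (w 1 (Fin.last k)) : Fin (k + 2) → G) (p1 k i)) =
          w 1 := by
        funext i
        refine Fin.lastCases ?_ (fun j => ?_) i
        · rw [p1_last, Fin.snoc_last]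
        · rw [p1_castSucc, Fin.snoc_castSucc]
          exact h3 j
      rw [e1, e2] at h6
      exact h6
  · refine ⟨{ toFun := fun u => Fin.snoc (fun i => h (Sum.inl i)) (h (Sum.inr u))
              map_fun' := fun f => isEmptyElim f
              map_rel' := ?_ }⟩
    intro r R x hx
    cases R with
    | arc =>
      have hx' : E (x 0) (x 1) := hx
      show (∀ i : Fin k, (Fin.snoc (fun i => h (Sum.inl i)) (h (Sum.inr (x 0))) :
          Fin (k + 1) → G) i.castSucc = (Fin.snoc (fun i => h (Sum.inl i)) (h (Sum.inr (x 1))) :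
          Fin (k + 1) → G) i.castSucc) ∧ Tr C.arc (Fin.snoc (Fin.snoc (fun i => h (Sum.inl i))
            (h (Sum.inr (x 0))) : Fin (k + 1) → G)
            ((Fin.snoc (fun i => h (Sum.inl i)) (h (Sum.inr (x 1))) : Fin (k + 1) → G)
              (Fin.last k)) : Fin (k + 2) → G)
      refine ⟨fun i => ?_, ?_⟩
      · rw [Fin.snoc_castSucc, Fin.snoc_castSucc]
      · rw [Fin.snoc_last]
        refine (tr_tri C.symm (fun i => h (Sum.inl i)) (h (Sum.inr (x 0))) (h (Sum.inr (x 1)))).2 ?_
        exact ⟨fun i j hij => h1 _ _ hij, fun i => h1 (Sum.inl i) (Sum.inr (x 0)) trivial,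
          fun i => h1 (Sum.inl i) (Sum.inr (x 1)) trivial, h1 (Sum.inr (x 0)) (Sum.inr (x 1)) hx'⟩

end

end Pool.Agent.H17.FK
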