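import Pool.Agent.H16.FK.TargetsB

/-!
# MXL: the splittings of the members converge to the splitting of the limit
-/

set_option autoImplicit false

namespace Pool.Agent.H17.FK

open Set Pool.Agent.H75.HCI Pool.Agent.H41.HI Pool.Agent.H71.HCI Pool.Agent.H16.FK

variable {C : Type} {M : List ℕ → C} {I J K : Type}

lemma uext {A : Type} {U V : Ultrafilter A}
    (h : ∀ p : A → Prop, (∀ᶠ x in (U : Filter A), p x) ↔ ∀ᶠ x in (V : Filter A), p x) : U = V :=
  Ultrafilter.coe_injective (Filter.ext fun s => h (fun x => x ∈ s))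

lemma prU_assoc (U : Ultrafilter (I → ℕ)) (V : Ultrafilter (J → ℕ)) (W : Ultrafilter (K → ℕ)) :
    prU (prU U V) W = re (prU U (prU V W)) (Equiv.sumAssoc I J K) := by
  refine uext fun p => ?_
  rw [ev_prU, ev_prU, ev_re, ev_prU]
  refine Filter.eventually_congr (Filter.Eventually.of_forall fun x => ?_)
  rw [ev_prU]
  refine Filter.eventually_congr (Filter.Eventually.of_forall fun y => ?_)
  refine Filter.eventually_congr (Filter.Eventually.of_forall fun z => ?_)
  have e : (Sum.elim x (Sum.elim y z)) ∘ (Equiv.sumAssoc I J K) = Sum.elim (Sum.elim x y) z := by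
    funext a
    rcases a with (a | a) | a <;> rfl
  rw [e]

lemma prU_re_left (V : Ultrafilter (I → ℕ)) (U : Ultrafilter (K → ℕ)) (f : J → I) :
    prU (re V f) U = re (prU V U) (Sum.map f id) := by
  refine uext fun p => ?_
  rw [ev_prU, ev_re, ev_re, ev_prU]
  refine Filter.eventually_congr (Filter.Eventually.of_forall fun x => ?_)
  refine Filter.eventually_congr (Filter.Eventually.of_forall fun y => ?_)
  have e : Sum.elim x y ∘ Sum.map f id = Sum.elim (x ∘ f) y := by
    funext a
    rcases a with a | a <;> rfl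
  rw [e]

lemma prU_re_right (U : Ultrafilter (K → ℕ)) (V : Ultrafilter (I → ℕ)) (f : J → I) :
    prU U (re V f) = re (prU U V) (Sum.map id f) := by
  refine uext fun p => ?_
  rw [ev_prU, ev_re, ev_prU]
  refine Filter.eventually_congr (Filter.Eventually.of_forall fun x => ?_)
  rw [ev_re]
  refine Filter.eventually_congr (Filter.Eventually.of_forall fun y => ?_)
  have e : Sum.elim x y ∘ Sum.map id f = Sum.elim x (y ∘ f) := by
    funext a
    rcases a with a | a <;> rfl
  rw [e]

lemma re_id (V : Ultrafilter (I → ℕ)) : re V id = V := by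
  refine uext fun p => ?_
  rw [ev_re]
  rfl

lemma tame_re (hM : FinL M) {V : Ultrafilter (I → ℕ)} (hV : Tame M V) (f : J → I) :
    Tame M (re V f) := by
  intro K _ U hU
  rw [prU_re_left, prU_re_right, re_re, typ_re_congr hM (hV K U hU) (Sum.map f id), re_re]
  have e : Sum.swap ∘ Sum.map f (id : K → K) = Sum.map id f ∘ Sum.swap := by
    funext a
    rcases a with a | a <;> rfl
  rw [e]

lemma tame_prU (hM : FinL M) [Finite I] {V0 : Ultrafilter (I → ℕ)} {V1 : Ultrafilter (J → ℕ)}
    (n0 : NP V0) (h0 : Tame M V0) (h1 : Tame M V1) : Tame M (prU V0 V1) := by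
  intro K _ U hU
  -- exchange of `U` and `V0` in front of `V1`
  have hA : typ M (prU (prU V0 U) V1) =
      typ M (re (prU U (prU V0 V1)) (Equiv.sumAssoc K I J ∘ Sum.map Sum.swap id)) := by
    have a1 : typ M (prU (prU V0 U) V1) = typ M (re (prU V1 (prU V0 U)) Sum.swap) := by
      have := h1 (I ⊕ K) (prU V0 U) (np_prU n0 hU)
      have e := typ_re_congr hM this Sum.swap
      rw [re_re] at e
      have e2 : (Sum.swap ∘ Sum.swap : (I ⊕ K) ⊕ J → (I ⊕ K) ⊕ J) = id := by
        funext a
        rcases a with a | a <;> rfl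
      rw [e2, re_id] at e
      exact e.symm
    have a2 : typ M (prU (re (prU U V0) Sum.swap) V1) =
        typ M (re (prU V1 (re (prU U V0) Sum.swap)) Sum.swap) := by
      have := h1 (I ⊕ K) (re (prU U V0) Sum.swap) (np_re (np_prU hU n0) _)
      have e := typ_re_congr hM this Sum.swap
      rw [re_re] at e
      have e2 : (Sum.swap ∘ Sum.swap : (I ⊕ K) ⊕ J → (I ⊕ K) ⊕ J) = id := by
        funext a
        rcases a with a | a <;> rfl
      rw [e2, re_id] at e
      exact e.symm
    have a3 : typ M (prU V1 (prU V0 U)) = typ M (prU V1 (re (prU U V0) Sum.swap)) :=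
      typ_prU_right hM V1 (h0 K U hU)
    rw [a1, typ_re_congr hM a3 Sum.swap, ← a2, prU_re_left, prU_assoc, re_re]
  have hB : prU V0 (prU U V1) = re (prU (prU V0 U) V1) (Equiv.sumAssoc I K J).symm := by
    rw [prU_assoc, re_re, Equiv.self_comp_symm, re_id]
  have b1 : typ M (prU V0 (prU V1 U)) = typ M (prU V0 (re (prU U V1) Sum.swap)) :=
    typ_prU_right hM V0 (h1 K U hU)
  rw [prU_assoc, typ_re_congr hM b1, prU_re_right, hB, re_re, re_re, typ_re_congr hM hA, re_re]
  congr 2
  funext a
  rcases a with (a | a) | a <;> rfl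

lemma list_mem (k : ℕ) (b : Fin k → Bool) (c : Bool) (i : Fin k) (h : b i = c) :
    ∃ p : Fin ((List.finRange k).filter fun i => b i = c).length,
      ((List.finRange k).filter fun i => b i = c).get p = i := by
  have h1 : i ∈ (List.finRange k).filter fun i => b i = c :=
    List.mem_filter.2 ⟨List.mem_finRange i, by simpa using h⟩
  exact List.mem_iff_get.1 h1

lemma list_len (k : ℕ) (b : Fin k → Bool) (c : Bool) (i : Fin k) (h : b i ≠ c) :
    ((List.finRange k).filter fun i => b i = c).length < k := by
  have h1 : ((List.finRange k).filter fun i => b i = c).length < (List.finRange k).length := by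
    rw [List.length_filter_lt_length_iff_exists]
    exact ⟨i, List.mem_finRange i, by simpa using h⟩
  rwa [List.length_finRange] at h1

theorem pf_MXL : T_MXL := by
  intro C k M UU V hM hNP hPP b hb
  obtain ⟨⟨y1, hy1⟩, ⟨y0, hy0⟩⟩ := hb
  set a0 := (List.finRange k).filter fun i => b i = false with ha0
  set a1 := (List.finRange k).filter fun i => b i = true with ha1
  have n0 : a0.Nodup := (List.nodup_finRange k).filter _
  have n1 : a1.Nodup := (List.nodup_finRange k).filter _
  have l0 : a0.length < k := list_len k b false y1 (by rw [hy1]; simp)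
  have l1 : a1.length < k := list_len k b true y0 (by rw [hy0]; simp)
  obtain ⟨τ0, ht0⟩ := hPP a0 n0 l0
  obtain ⟨τ1, ht1⟩ := hPP a1 n1 l1
  -- the places
  have he : ∃ e : Fin k → Fin a0.length ⊕ Fin a1.length, ∀ (x y : Fin k → ℕ) (i : Fin k),
      Sum.elim (x ∘ a0.get) (y ∘ a1.get) (e i) = if b i then y i else x i := by
    have h : ∀ i : Fin k, ∃ p : Fin a0.length ⊕ Fin a1.length, ∀ (x y : Fin k → ℕ),
        Sum.elim (x ∘ a0.get) (y ∘ a1.get) p = if b i then y i else x i := by
      intro i
      cases hbi : b i with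
      | false =>
        obtain ⟨p, hp⟩ := list_mem k b false i hbi
        refine ⟨Sum.inl p, fun x y => ?_⟩
        change x (a0.get p) = _
        rw [hp]
        simp
      | true =>
        obtain ⟨p, hp⟩ := list_mem k b true i hbi
        refine ⟨Sum.inr p, fun x y => ?_⟩
        change y (a1.get p) = _
        rw [hp]
        simp
    choose e he using h
    exact ⟨e, fun x y i => he i x y⟩
  obtain ⟨e, he⟩ := he
  have hmix : ∀ W : Ultrafilter (Fin k → ℕ),
      mixU W b = re (prU (re W a0.get) (re W a1.get)) e := by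
    intro W
    refine uext fun p => ?_
    rw [ev_re, ev_prU, ev_re]
    unfold mixU
    rw [mem_bind]
    refine Filter.eventually_congr (Filter.Eventually.of_forall fun x => ?_)
    rw [ev_re, Ultrafilter.coe_map, Filter.eventually_map]
    refine Filter.eventually_congr (Filter.Eventually.of_forall fun y => ?_)
    have h : Sum.elim (x ∘ a0.get) (y ∘ a1.get) ∘ e = fun i => if b i then y i else x i := by
      funext i
      exact he x y i
    rw [h]
  -- the good members
  have hgood : ∀ᶠ j in (UU : Filter ℕ), NP (V j) ∧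
      (Tame M (re (V j) a0.get) ∧ typ M (re (V j) a0.get) = τ0) ∧
      (Tame M (re (V j) a1.get) ∧ typ M (re (V j) a1.get) = τ1) :=
    hNP.and (ht0.and ht1)
  obtain ⟨j0, hj0⟩ := hgood.exists
  have hsame : ∀ j, (NP (V j) ∧ (Tame M (re (V j) a0.get) ∧ typ M (re (V j) a0.get) = τ0) ∧
      (Tame M (re (V j) a1.get) ∧ typ M (re (V j) a1.get) = τ1)) →
      typ M (prU (re (V j) a0.get) (re (V j0) a1.get)) =
        typ M (prU (re (V j0) a0.get) (re (V j0) a1.get)) := by
    intro j hj
    exact typ_prU_left hM (np_re hj0.1 _) hj.2.1.1 hj0.2.1.1 (hj.2.1.2.trans hj0.2.1.2.symm)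
  have hlim1 : typ M (re (limU UU V) a1.get) = τ1 := by
    funext l
    have h1 := typ_limU hM UU (fun j => re (V j) a1.get) l
    obtain ⟨j, hj1, hj2⟩ := (h1.and hgood).exists
    have h2 : re (limU UU V) a1.get = limU UU (fun j => re (V j) a1.get) := by
      refine uext fun p => ?_
      rfl
    rw [h2, ← hj1, hj2.2.2.2]
  have hlim : typ M (prU (re (limU UU V) a0.get) (re (limU UU V) a1.get)) =
      typ M (prU (re (V j0) a0.get) (re (V j0) a1.get)) := by
    rw [typ_prU_right hM (re (limU UU V) a0.get) (hlim1.trans hj0.2.2.2.symm)]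
    funext l
    have h2 : prU (re (limU UU V) a0.get) (re (V j0) a1.get) =
        limU UU (fun j => prU (re (V j) a0.get) (re (V j0) a1.get)) := by
      refine uext fun p => ?_
      rfl
    have h1 := typ_limU hM UU (fun j => prU (re (V j) a0.get) (re (V j0) a1.get)) l
    obtain ⟨j, hj1, hj2⟩ := (h1.and hgood).exists
    rw [h2, ← hj1, hsame j hj2]
  constructor
  · filter_upwards [hgood] with j hj
    rw [hmix, hmix]
    refine typ_re_congr hM ?_ e
    rw [hlim, ← hsame j hj]
    exact typ_prU_right hM _ (hj.2.2.2.trans hj0.2.2.2.symm)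
  · filter_upwards [hgood] with j hj
    rw [hmix]
    exact tame_re hM (tame_prU hM (np_re hj.1 _) hj.2.1.1 hj.2.2.1) e

end Pool.Agent.H17.FK
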