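import Mathlib
import Pool.Agent.H17.FK.FB
import Pool.Agent.H17.FK.Link
import Pool.Agent.H17.FK.K3
import Pool.Agent.H17.DG.Trans

set_option autoImplicit false

/-!
# The `k`-homogeneous undirected graph over an undirected graph
-/

namespace Pool.Agent.H17.FK

open FirstOrder FirstOrder.Language Pool.Agent.H74.Stub Set
open Pool.Agent.H17.DG (IsHomo Dig digStr ArcRel InScope KHomogeneous NoAlgebraicity K3 finRel_dig
  LBp finRel_LBp IsReduct ppConstructs_trans)

/-- the condition as a list of atomic formulas -/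
def lK (k : ℕ) : List (Atom Dig (Fin (k + 1) → Fin (k + 2))) :=
  [Atom.rel (L := Dig) (n := 2) ArcRel.arc ![Fin.castSucc, p1 k] ]

theorem lK_eq (k : ℕ) {H : Type} (E : H → H → Prop) :
    (fun c : (Fin (k + 1) → Fin (k + 2)) → H => ∀ a ∈ lK k, @Atom.Holds Dig _ H (digStr E) c a) =
      QK k E := by
  funext c
  apply propext
  unfold lK
  rw [List.forall_mem_singleton]
  exact Iff.rfl

theorem inv_QK (k : ℕ) {H : Type} {E : H → H → Prop} {LB : FirstOrder.Language.{0, 0}}
    [LB.Structure H] (hR : @IsReduct Dig LB H (digStr E) _) : Inv LB (QK k E) := by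
  intro g c hc
  obtain ⟨φ, -, hφ⟩ := hR
  have h1 := fun x : Fin 2 → H => hφ 2 ArcRel.arc x
  have h2 : E (c Fin.castSucc) (c (p1 k)) := hc
  have h3 : Structure.RelMap (φ 2 ArcRel.arc) (fun i => g (![c Fin.castSucc, c (p1 k)] i)) :=
    (g.map_rel (φ 2 ArcRel.arc) _).2 ((h1 ![c Fin.castSucc, c (p1 k)]).1 h2)
  exact (h1 (fun i => g (![c Fin.castSucc, c (p1 k)] i))).2 h3

/-- The `k`-homogeneous graph. -/
theorem link_graph (k : ℕ) {H : Type} {E : H → H → Prop} (hH : @InScope Dig H (digStr E))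
    (hE : ∀ x y, E x y → E y x) (hEi : ∀ x, ¬ E x x) :
    ∃ (G : Type) (F : G → G → Prop), @InScope Dig G (digStr F) ∧ Infinite G ∧
      (∀ x y, F x y → F y x) ∧ (∀ x, ¬ F x x) ∧ KHomogeneous k F ∧ NoAlgebraicity F ∧
      @PPConstructs Dig G (digStr F) Dig H (digStr E) ∧
      (@PPConstructs Dig G (digStr F) Dig (Fin 3) K3 ↔
        @PPConstructs Dig H (digStr E) Dig (Fin 3) K3) ∧
      (∀ (D : Type) (_ : Countable D) (R : D → D → Prop),
        (∃ f : D → H, IsHomo R E f) ↔ ∃ h : Fin k ⊕ D → G, IsHomo (Jn k R) F h) ∧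
      (∀ (X : Type) (_ : Countable X) (R : X → X → Prop),
        (∃ h : X → G, IsHomo R F h) ↔ (∀ x, ¬ R x x) ∧
          ∀ q : Fin k → X, ∃ g : X → H, ∀ y z, Lk (fun x y => R x y ∨ R y x) q y z →
            E (g y) (g z)) := by
  classical
  obtain ⟨-, hcount, hne, LB, sB, hLB, hB, hFB, hR⟩ := hH
  have hrelB := hLB.1
  obtain ⟨G, hG, C, hC⟩ := exists_isGen k H (m := k + 2) (by omega) (QK k E) (QK_loc k E)
  have hno := noAlg hC
  have hGne : Nonempty G := by
    obtain ⟨h, -⟩ := join_hom hC hE hEi (D := Unit) (fun _ _ => False)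
      (fun _ => Classical.arbitrary H) (fun _ _ h => h.elim)
    exact ⟨h (Sum.inr ())⟩
  have hinf : Infinite G := by
    obtain ⟨x⟩ := hGne
    have h1 := hno ∅ x (by simp)
    exact Set.infinite_univ_iff.1 (h1.mono (subset_univ _))
  have hpp := ppConstructs_link hC hE hEi
  have hinv := inv_QK k hR
  refine ⟨G, C.arc, ?_, hinf, C.symm, C.irrefl, kHomog hC, hno, hpp, ?_, ?_, ?_⟩
  · let _ := digStr C.arc
    exact ⟨finRel_dig, hG, hGne, LBp LB k, strB LB C, finRel_LBp hLB k, homogB hB hC hinv,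
      finitelyBounded hLB hB hFB hC (QK_loc k E) hinv, reductB⟩
  · constructor
    · intro h
      let _ := digStr E
      refine k3_of_generic (C := C) (lK k) ?_ (by omega) h
      rw [lK_eq]
      exact hC
    · intro h
      let _ := digStr C.arc
      let _ := digStr E
      let _ := K3
      exact ppConstructs_trans hpp h
  · intro D _ R
    exact join_iff hC hE hEi R
  · intro X _ R
    exact link_iff hC R

end Pool.Agent.H17.FK
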